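import Pool.Agent.Helper2_GRA.ISO

/-!
MP_3b0ba7_pr, squad GRA, Block S: network reduction (row NET) and the Aldous order
(rows ALS, ALD) from the octopus inequality.
-/

set_option autoImplicit false

namespace Pool.Agent.GRA.S.H02

open Pool.Agent.GRA.S

theorem double_insert {n : ℕ} {S : Finset (Fin n)} {l : Fin n} (hl : l ∉ S)
    (g : Fin n → Fin n → ℝ) (hg : g l l = 0) (hs : ∀ i, g i l = g l i) :
    ∑ i ∈ insert l S, ∑ j ∈ insert l S, g i j =
      2 * ∑ i ∈ S, g l i + ∑ i ∈ S, ∑ j ∈ S, g i j := by
  rw [Finset.sum_insert hl, Finset.sum_insert hl, hg]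
  have h1 : ∑ i ∈ S, ∑ j ∈ insert l S, g i j = ∑ i ∈ S, g l i + ∑ i ∈ S, ∑ j ∈ S, g i j := by
    rw [← Finset.sum_add_distrib]
    refine Finset.sum_congr rfl fun i _ => ?_
    rw [Finset.sum_insert hl, hs]
  rw [h1]
  ring

theorem var_nonneg {n : ℕ} (S : Finset (Fin n)) (hS : S.Nonempty) (y : Fin n → ℝ) :
    0 ≤ ∑ i ∈ S, y i ^ 2 - (∑ i ∈ S, y i) ^ 2 / S.card := by
  have h1 : (0 : ℝ) < S.card := by exact_mod_cast Finset.card_pos.2 hS
  have h2 := sq_sum_le_card_mul_sum_sq (s := S) (f := y)
  rw [sub_nonneg, div_le_iff₀ h1]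
  linarith [mul_comm (∑ i ∈ S, y i ^ 2) (S.card : ℝ)]

/-- row NET -/
theorem net : NETStmt := by
  intro n W hsym hnn S l hl hS lam h hC y
  set C := ∑ k ∈ S, W l k with hCdef
  set T := ∑ k ∈ S, W l k * y k with hT
  set m := T / C with hm
  have hCm : C * m = T := by rw [hm]; field_simp
  have hred0 : 0 ≤ 1 / 4 * ∑ i ∈ S, ∑ j ∈ S, red W S l i j * (y i - y j) ^ 2 := by
    refine mul_nonneg (by norm_num) (Finset.sum_nonneg fun i _ => Finset.sum_nonneg fun j _ => ?_)
    refine mul_nonneg ?_ (sq_nonneg _)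
    unfold red
    exact add_nonneg (hnn i j) (div_nonneg (mul_nonneg (hnn l i) (hnn l j)) hC.le)
  rcases lt_or_ge lam 0 with hlam | hlam
  · exact (mul_nonpos_of_nonpos_of_nonneg hlam.le (var_nonneg S hS y)).trans hred0
  · have hN : (0 : ℝ) < S.card := by exact_mod_cast Finset.card_pos.2 hS
    have hup : ∀ i ∈ S, Function.update y l m i = y i := fun i hi =>
      Function.update_of_ne (fun h => hl (by rw [← h]; exact hi)) _ _
    have h1 := h (Function.update y l m)
    rw [Finset.sum_insert hl, Finset.sum_insert hl, Function.update_self,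
      Finset.sum_congr rfl fun i hi => by rw [hup i hi],
      Finset.sum_congr (s₁ := S) (f := fun i => Function.update y l m i) rfl
        fun i hi => hup i hi, Finset.card_insert_of_notMem hl] at h1
    rw [double_insert hl (fun i j => W i j * (Function.update y l m i - Function.update y l m j) ^ 2)
      (by simp) (fun i => by rw [hsym i l]; ring)] at h1
    have e1 : ∑ i ∈ S, W l i * (Function.update y l m l - Function.update y l m i) ^ 2 =
        ∑ i ∈ S, W l i * y i ^ 2 - 2 * m * T + C * m ^ 2 := by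
      rw [hT, hCdef, Finset.mul_sum, Finset.sum_mul, ← Finset.sum_sub_distrib,
        ← Finset.sum_add_distrib]
      refine Finset.sum_congr rfl fun i hi => ?_
      rw [Function.update_self, hup i hi]
      ring
    have e2 : ∑ i ∈ S, ∑ j ∈ S, W i j * (Function.update y l m i - Function.update y l m j) ^ 2 =
        ∑ i ∈ S, ∑ j ∈ S, W i j * (y i - y j) ^ 2 :=
      Finset.sum_congr rfl fun i hi => Finset.sum_congr rfl fun j hj => by
        rw [hup i hi, hup j hj]
    have e3 : ∑ i ∈ S, ∑ j ∈ S, red W S l i j * (y i - y j) ^ 2 =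
        ∑ i ∈ S, ∑ j ∈ S, W i j * (y i - y j) ^ 2 +
          2 * (∑ i ∈ S, W l i * y i ^ 2 - m * T) := by
      have e4 : ∑ i ∈ S, ∑ j ∈ S, W l i * W l j * (y i - y j) ^ 2 =
          2 * C * (∑ i ∈ S, W l i * y i ^ 2) - 2 * T ^ 2 := by
        have e5 : ∀ i ∈ S, ∑ j ∈ S, W l i * W l j * (y i - y j) ^ 2 =
            W l i * y i ^ 2 * C - 2 * (W l i * y i) * T + W l i * ∑ j ∈ S, W l j * y j ^ 2 := by
          intro i _
          rw [hT, hCdef, Finset.mul_sum, Finset.mul_sum, Finset.mul_sum, ← Finset.sum_sub_distrib,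
            ← Finset.sum_add_distrib]
          exact Finset.sum_congr rfl fun j _ => by ring
        rw [Finset.sum_congr rfl e5, Finset.sum_add_distrib, Finset.sum_sub_distrib,
          ← Finset.sum_mul, ← Finset.sum_mul, ← Finset.sum_mul, ← Finset.mul_sum, ← hT, ← hCdef]
        ring
      have e6 : ∑ i ∈ S, ∑ j ∈ S, red W S l i j * (y i - y j) ^ 2 =
          ∑ i ∈ S, ∑ j ∈ S, W i j * (y i - y j) ^ 2 +
            (∑ i ∈ S, ∑ j ∈ S, W l i * W l j * (y i - y j) ^ 2) / C := by
        rw [Finset.sum_div, ← Finset.sum_add_distrib]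
        refine Finset.sum_congr rfl fun i _ => ?_
        rw [Finset.sum_div, ← Finset.sum_add_distrib]
        refine Finset.sum_congr rfl fun j _ => ?_
        unfold red
        rw [← hCdef]
        ring
      rw [e6, e4]
      have e7 : (2 * C * (∑ i ∈ S, W l i * y i ^ 2) - 2 * T ^ 2) / C =
          2 * (∑ i ∈ S, W l i * y i ^ 2 - m * T) := by
        rw [← hCm]
        field_simp
      rw [e7]
    rw [e1, e2] at h1
    have h2 : lam * (∑ i ∈ S, y i ^ 2 - (∑ i ∈ S, y i) ^ 2 / S.card) ≤
        lam * (m ^ 2 + ∑ i ∈ S, y i ^ 2 - (m + ∑ i ∈ S, y i) ^ 2 / ((S.card + 1 : ℕ) : ℝ)) := by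
      refine mul_le_mul_of_nonneg_left ?_ hlam
      push_cast
      have e8 : m ^ 2 + ∑ i ∈ S, y i ^ 2 - (m + ∑ i ∈ S, y i) ^ 2 / ((S.card : ℝ) + 1) -
          (∑ i ∈ S, y i ^ 2 - (∑ i ∈ S, y i) ^ 2 / S.card) =
          (S.card * m - ∑ i ∈ S, y i) ^ 2 / (S.card * (S.card + 1)) := by
        field_simp
        ring
      have e9 : 0 ≤ (S.card * m - ∑ i ∈ S, y i) ^ 2 / ((S.card : ℝ) * (S.card + 1)) := by
        positivity
      linarith
    refine (h2.trans h1).trans (le_of_eq ?_)
    rw [e3, ← hCm]
    ring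

section
variable {n : ℕ} {E : Type} [NormedAddCommGroup E] [InnerProductSpace ℂ E]
  {p : Equiv.Perm (Fin n) →* (E →ₗ[ℂ] E)}

theorem en_nonneg {W : Fin n → Fin n → ℝ} (hnn : ∀ i j, 0 ≤ W i j) (S : Finset (Fin n)) (f : E) :
    0 ≤ En p W S f :=
  mul_nonneg (by norm_num) (Finset.sum_nonneg fun i _ => Finset.sum_nonneg fun j _ =>
    mul_nonneg (hnn i j) (sq_nonneg _))

/-- the subspace of the one-body part is invariant -/
theorem k_inv {S : Finset (Fin n)} {s : Equiv.Perm (Fin n)} (hs : ∀ x, x ∉ S → s x = x) {x : E}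
    (hx : x ∈ (⨆ i ∈ S, Inv p (S.erase i))) : p s x ∈ (⨆ i ∈ S, Inv p (S.erase i)) := by
  have h1 : (⨆ i ∈ S, Inv p (S.erase i)) ≤ (⨆ i ∈ S, Inv p (S.erase i)).comap (p s) := by
    refine iSup₂_le fun i hi y hy => ?_
    rw [Submodule.mem_comap]
    refine Submodule.mem_iSup_of_mem (s i) (Submodule.mem_iSup_of_mem (supp_mem hs hi) ?_)
    intro t ht
    have h2 : p (s⁻¹ * t * s) y = y := by
      refine hy _ fun z hz => ?_
      simp only [Equiv.Perm.mul_apply]
      rw [Equiv.Perm.inv_eq_iff_eq]
      refine ht _ fun h3 => hz ?_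
      obtain ⟨h4, h5⟩ := Finset.mem_erase.1 h3
      refine Finset.mem_erase.2 ⟨fun h => h4 (by rw [h]), ?_⟩
      have h6 := supp_mem (supp_inv hs) h5
      simpa using h6
    calc p t (p s y) = p s (p (s⁻¹ * t * s) y) := by
          rw [p_mul, p_mul, mul_assoc s⁻¹, mul_inv_cancel_left]
      _ = p s y := by rw [h2]
  exact h1 hx

theorem korth_inv (hp : ∀ s x, ‖p s x‖ = ‖x‖) {S : Finset (Fin n)} {s : Equiv.Perm (Fin n)}
    (hs : ∀ x, x ∉ S → s x = x) {x : E} (hx : x ∈ (⨆ i ∈ S, Inv p (S.erase i))ᗮ) :
    p s x ∈ (⨆ i ∈ S, Inv p (S.erase i))ᗮ := by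
  rw [Submodule.mem_orthogonal] at hx ⊢
  intro y hy
  rw [inner_p_right hp]
  exact hx _ (k_inv (supp_inv hs) hy)

theorem en_add (hp : ∀ s x, ‖p s x‖ = ‖x‖) {S : Finset (Fin n)} {W : Fin n → Fin n → ℝ} {u v : E}
    (hu : u ∈ (⨆ i ∈ S, Inv p (S.erase i))) (hv : v ∈ (⨆ i ∈ S, Inv p (S.erase i))ᗮ) :
    En p W S (u + v) = En p W S u + En p W S v := by
  unfold En
  rw [← mul_add, ← Finset.sum_add_distrib]
  congr 1
  refine Finset.sum_congr rfl fun i hi => ?_
  rw [← Finset.sum_add_distrib]
  refine Finset.sum_congr rfl fun j hj => ?_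
  rw [← mul_add]
  congr 1
  have hs := supp_swap hi hj
  have h1 : inner ℂ (u - p (Equiv.swap i j) u) (v - p (Equiv.swap i j) v) = 0 :=
    Submodule.inner_right_of_mem_orthogonal (Submodule.sub_mem _ hu (k_inv hs hu))
      (Submodule.sub_mem _ hv (korth_inv hp hs hv))
  have h2 : u + v - p (Equiv.swap i j) (u + v) =
      (u - p (Equiv.swap i j) u) + (v - p (Equiv.swap i j) v) := by
    rw [map_add]; abel
  rw [h2, sq, sq, sq]
  exact norm_add_sq_eq_norm_sq_add_norm_sq_of_inner_eq_zero _ _ h1

theorem en_insert {S : Finset (Fin n)} {l : Fin n} (hl : l ∉ S) {W : Fin n → Fin n → ℝ}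
    (hsym : ∀ i j, W i j = W j i) (f : E) :
    En p W (insert l S) f = 1 / 4 * ∑ i ∈ S, W l i * ‖f - p (Equiv.swap l i) f‖ ^ 2 +
      En p W S f := by
  unfold En
  rw [double_insert hl (fun i j => W i j * ‖f - p (Equiv.swap i j) f‖ ^ 2) ?_ ?_]
  · ring
  · rw [Equiv.swap_self]
    have : p (Equiv.refl (Fin n)) f = f := p_one f
    rw [this, sub_self, norm_zero]
    ring
  · intro i
    rw [hsym i l, Equiv.swap_comm]

theorem inv_small {S : Finset (Fin n)} (hS : S.card ≤ 1) (f : E) : f ∈ Inv p S := by
  intro s hs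
  have h1 : s = 1 := by
    ext x
    by_cases hx : x ∈ S
    · have h2 := supp_mem hs hx
      rw [Equiv.Perm.one_apply, Finset.card_le_one.1 hS _ h2 _ hx]
    · rw [hs x hx, Equiv.Perm.one_apply]
  rw [h1, p_one]

end

/-- row ALS -/
theorem als (oct : OCTStmt) : ALSStmt := by
  intro n E _ _ _ p hp S
  induction S using Finset.induction_on with
  | empty =>
    intro W hsym hnn lam hW f hf
    have h1 := hf f (inv_small (by simp) f)
    rw [inner_self_eq_zero] at h1
    rw [h1, norm_zero]
    unfold En
    simp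
  | insert l S hl ih =>
    intro W hsym hnn lam hW f hf
    rcases S.eq_empty_or_nonempty with hS | hS
    · have h1 := hf f (inv_small (by rw [hS]; simp) f)
      rw [inner_self_eq_zero] at h1
      have h2 := en_nonneg (p := p) hnn (insert l S) f
      rw [h1, norm_zero] at *
      simpa using h2
    · have hcard : 2 ≤ (insert l S).card := by
        rw [Finset.card_insert_of_notMem hl]
        have := Finset.card_pos.2 hS
        omega
      obtain ⟨u, hu, v, hv, rfl⟩ :=
        Submodule.exists_add_mem_mem_orthogonal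
          (K := ⨆ i ∈ insert l S, Inv p ((insert l S).erase i)) f
      have hlm : l ∈ insert l S := Finset.mem_insert_self l S
      have herase : (insert l S).erase l = S := Finset.erase_insert hl
      have hle : Inv p S ≤ ⨆ i ∈ insert l S, Inv p ((insert l S).erase i) := by
        intro x hx
        refine Submodule.mem_iSup_of_mem l (Submodule.mem_iSup_of_mem hlm ?_)
        rw [herase]; exact hx
      have hle' : Inv p (insert l S) ≤ Inv p S := inv_mono (Finset.subset_insert l S)
      have hu0 : ∀ h ∈ Inv p (insert l S), inner ℂ h u = 0 := by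
        intro h hh
        have h1 := hf h hh
        have h2 : inner ℂ h v = 0 :=
          Submodule.inner_right_of_mem_orthogonal (hle (hle' hh)) hv
        rw [inner_add_right, h2, add_zero] at h1
        exact h1
      have hv0 : ∀ h ∈ Inv p S, inner ℂ h v = 0 := fun h hh =>
        Submodule.inner_right_of_mem_orthogonal (hle hh) hv
      have k1 := iso n E p hp (insert l S) hcard W lam hW u hu hu0
      have k2 : lam * ‖v‖ ^ 2 ≤ En p W (insert l S) v := by
        have hC0 : 0 ≤ ∑ k ∈ S, W l k := Finset.sum_nonneg fun k _ => hnn l k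
        rcases hC0.eq_or_lt with hC | hC
        · have hlam : lam ≤ 0 := by
            have h1 := hW (Pi.single l 1)
            have hz : ∀ i ∈ S, (Pi.single l 1 : Fin n → ℝ) i = 0 := fun i hi =>
              Pi.single_eq_of_ne (fun h => hl (by rw [← h]; exact hi)) _
            have hWz : ∀ i ∈ S, W l i = 0 := fun i hi =>
              (Finset.sum_eq_zero_iff_of_nonneg fun k _ => hnn l k).1 hC.symm i hi
            rw [double_insert hl (fun i j => W i j *
                ((Pi.single l 1 : Fin n → ℝ) i - (Pi.single l 1 : Fin n → ℝ) j) ^ 2)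
                (by simp) (fun i => by rw [hsym i l]; ring),
              Finset.sum_insert hl, Finset.sum_insert hl, Finset.card_insert_of_notMem hl] at h1
            rw [Finset.sum_eq_zero (f := fun i => (Pi.single l 1 : Fin n → ℝ) i ^ 2)
                fun i hi => by rw [hz i hi]; norm_num,
              Finset.sum_eq_zero (f := fun i => (Pi.single l 1 : Fin n → ℝ) i)
                fun i hi => hz i hi,
              Finset.sum_eq_zero (f := fun i => W l i *
                ((Pi.single l 1 : Fin n → ℝ) l - (Pi.single l 1 : Fin n → ℝ) i) ^ 2)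
                fun i hi => by rw [hWz i hi]; ring,
              Finset.sum_eq_zero (f := fun i => ∑ j ∈ S, W i j *
                ((Pi.single l 1 : Fin n → ℝ) i - (Pi.single l 1 : Fin n → ℝ) j) ^ 2)
                fun i hi => Finset.sum_eq_zero fun j hj => by rw [hz i hi, hz j hj]; ring,
              Pi.single_eq_same] at h1
            have hN : (1 : ℝ) ≤ S.card := by exact_mod_cast Finset.card_pos.2 hS
            have hpos : (0 : ℝ) < 1 ^ 2 + 0 - (1 + 0) ^ 2 / ((S.card + 1 : ℕ) : ℝ) := by
              push_cast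
              have : (1 + 0) ^ 2 / ((S.card : ℝ) + 1) < 1 := by
                rw [div_lt_one (by linarith)]
                linarith
              linarith
            by_contra hcon
            push Not at hcon
            have := mul_pos hcon hpos
            linarith
          exact (mul_nonpos_of_nonpos_of_nonneg hlam (sq_nonneg _)).trans
            (en_nonneg hnn _ v)
        · have h1 := net n W hsym hnn S l hl hS lam hW hC
          have h2 := ih (red W S l)
            (fun i j => by unfold red; rw [hsym i j, mul_comm (W l i)])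
            (fun i j => by
              unfold red
              exact add_nonneg (hnn i j) (div_nonneg (mul_nonneg (hnn l i) (hnn l j)) hC.le))
            lam h1 v hv0
          refine h2.trans ?_
          rw [en_insert hl hsym]
          have h3 := oct n E p hp S l hl (fun i => W l i) (fun i => hnn l i) v
          have h4 : En p (red W S l) S v = En p W S v + 1 / 8 *
              ((∑ i ∈ S, ∑ j ∈ S, W l i * W l j * ‖v - p (Equiv.swap i j) v‖ ^ 2) /
                ∑ k ∈ S, W l k) := by
            unfold En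
            rw [← mul_add, Finset.sum_div, ← Finset.sum_add_distrib]
            congr 1
            refine Finset.sum_congr rfl fun i _ => ?_
            rw [Finset.sum_div, ← Finset.sum_add_distrib]
            refine Finset.sum_congr rfl fun j _ => ?_
            unfold red
            ring
          have h5 : (∑ i ∈ S, ∑ j ∈ S, W l i * W l j * ‖v - p (Equiv.swap i j) v‖ ^ 2) /
              (∑ k ∈ S, W l k) ≤ 2 * ∑ i ∈ S, W l i * ‖v - p (Equiv.swap l i) v‖ ^ 2 := by
            rw [div_le_iff₀ hC]
            refine h3.trans (le_of_eq ?_)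
            ring
          rw [h4]
          linarith
      have hn : ‖u + v‖ ^ 2 = ‖u‖ ^ 2 + ‖v‖ ^ 2 := by
        rw [sq, sq, sq]
        exact norm_add_sq_eq_norm_sq_add_norm_sq_of_inner_eq_zero _ _
          (Submodule.inner_right_of_mem_orthogonal hu hv)
      rw [hn, en_add hp hu hv, mul_add]
      exact add_le_add k1 k2

/-- row ALD -/
theorem ald (oct : OCTStmt) : ALDStmt := by
  intro n E _ _ _ p hp W hsym hnn lam hW f hf
  exact als oct n E p hp Finset.univ W hsym hnn lam hW f fun h hh =>
    hf h fun s => hh s fun x hx => absurd (Finset.mem_univ x) hx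

end Pool.Agent.GRA.S.H02
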