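import Pool.Agent.GRA.Defs2

/-!
MP_3b0ba7_pr, squad GRA: one parameter groups and the derived representation.
-/

set_option autoImplicit false

namespace Pool.Agent.GRA.H02

open Pool.Agent.GRA Pool.Agent.Helper64_FR Pool.Agent.UTR Matrix Finset

/-- the exponential of an operator at an eigenvector -/
theorem exp_apply_eig {E : Type*} [NormedAddCommGroup E] [InnerProductSpace ℂ E]
    [CompleteSpace E] (T : E →L[ℂ] E) (v : E) (lam : ℂ) (h : T v = lam • v) :
    (NormedSpace.exp T) v = Complex.exp lam • v := by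
  have hp : ∀ m : ℕ, (T ^ m) v = lam ^ m • v := by
    intro m
    induction m with
    | zero => simp
    | succ m ih =>
      rw [pow_succ', mul_apply_eq_comp, ih, map_smul, h, smul_smul, pow_succ]
  have h1 := NormedSpace.exp_series_hasSum_exp' (𝕂 := ℂ) T
  have h2 := h1.mapL (ContinuousLinearMap.apply ℂ E v)
  have h3 := (NormedSpace.exp_series_hasSum_exp' (𝕂 := ℂ) lam).smul_const v
  rw [← Complex.exp_eq_exp_ℂ] at h3
  have h4 : (fun m : ℕ => (ContinuousLinearMap.apply ℂ E v) (((m.factorial : ℂ)⁻¹) • T ^ m)) =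
      fun m : ℕ => (((m.factorial : ℂ)⁻¹) • lam ^ m) • v := by
    funext m
    rw [ContinuousLinearMap.apply_apply, _root_.smul_apply, hp, smul_smul,
      smul_eq_mul]
  rw [h4] at h2
  exact h2.unique h3

/-- derivative at `0` of a one parameter group applied to a vector -/
theorem hasDerivAt_exp_vec {E : Type*} [NormedAddCommGroup E] [InnerProductSpace ℂ E]
    [CompleteSpace E] (T : E →L[ℂ] E) (v : E) :
    HasDerivAt (fun θ : ℝ => (NormedSpace.exp ((θ : ℂ) • T)) v) (T v) 0 := by
  have h0 : ∀ θ : ℝ, ((θ : ℂ) • T) = θ • T := by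
    intro θ
    ext w
    rfl
  have h1 := hasDerivAt_exp_smul_const (𝕂 := ℝ) T (0 : ℝ)
  have h2 := ((ContinuousLinearMap.apply ℂ E v).hasFDerivAt.restrictScalars ℝ).comp_hasDerivAt
    (0 : ℝ) h1
  have h3 : (ContinuousLinearMap.apply ℂ E v)
      (NormedSpace.exp ((0 : ℝ) • T) * T) = T v := by
    simp
  have h4 : (fun θ : ℝ => (NormedSpace.exp ((θ : ℂ) • T)) v) =
      (fun θ : ℝ => (ContinuousLinearMap.apply ℂ E v) (NormedSpace.exp (θ • T))) := by
    funext θ
    rw [h0]
    rfl
  rw [h4, ← h3]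
  exact h2

end Pool.Agent.GRA.H02
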