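import Pool.Agent.GRA.StmtsC
import Pool.Agent.Helper2_GRA.ALD
import Pool.Agent.Helper99_GRA.OCT

/-!
MP_3b0ba7_pr, squad GRA, row ALD: Aldous order, closed form (octopus by helper99).
-/

set_option autoImplicit false

namespace Pool.Agent.GRA.H02

/-- row ALD -/
theorem ald : Pool.Agent.GRA.ALDStmt := by
  intro n E _ _ _ s hs W hsym hnn lam hW f hf
  exact Pool.Agent.GRA.S.H02.ald Pool.Agent.GRA.S.H99.oct n E s hs W hsym hnn lam hW f hf

end Pool.Agent.GRA.H02
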