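import Pool.Agent.GRA.DefsS

/-!
MP_3b0ba7_pr, squad GRA, Block S: the one-body part (rows ISO and NET).
-/

set_option autoImplicit false

namespace Pool.Agent.GRA.S.H02

open Pool.Agent.GRA.S

section
variable {n : ℕ} {E : Type} [NormedAddCommGroup E] [InnerProductSpace ℂ E]
  {p : Equiv.Perm (Fin n) →* (E →ₗ[ℂ] E)}

theorem p_mul (s t : Equiv.Perm (Fin n)) (x : E) : p s (p t x) = p (s * t) x := by
  rw [map_mul]; rfl

theorem p_one (x : E) : p 1 x = x := by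
  rw [map_one]; rfl

theorem inner_p (hp : ∀ s x, ‖p s x‖ = ‖x‖) (s : Equiv.Perm (Fin n)) (x y : E) :
    inner ℂ (p s x) (p s y) = inner ℂ x y :=
  (⟨p s, hp s⟩ : E →ₗᵢ[ℂ] E).inner_map_map x y

theorem inner_p_left (hp : ∀ s x, ‖p s x‖ = ‖x‖) (s : Equiv.Perm (Fin n)) (x y : E) :
    inner ℂ (p s x) y = inner ℂ x (p s⁻¹ y) := by
  rw [← inner_p hp s x (p s⁻¹ y), p_mul, mul_inv_cancel, p_one]

theorem inner_p_right (hp : ∀ s x, ‖p s x‖ = ‖x‖) (s : Equiv.Perm (Fin n)) (x y : E) :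
    inner ℂ x (p s y) = inner ℂ (p s⁻¹ x) y := by
  rw [inner_p_left hp, inv_inv]

theorem supp_inv {S : Finset (Fin n)} {s : Equiv.Perm (Fin n)} (hs : ∀ x, x ∉ S → s x = x) :
    ∀ x, x ∉ S → s⁻¹ x = x := by
  intro x hx
  rw [Equiv.Perm.inv_eq_iff_eq, hs x hx]

theorem supp_mem {S : Finset (Fin n)} {s : Equiv.Perm (Fin n)} (hs : ∀ x, x ∉ S → s x = x)
    {b : Fin n} (hb : b ∈ S) : s b ∈ S := by
  by_contra h
  have h1 := hs _ h
  have h2 : s b = b := s.injective h1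
  exact h (by rw [h2]; exact hb)

theorem supp_swap {S : Finset (Fin n)} {i j : Fin n} (hi : i ∈ S) (hj : j ∈ S) :
    ∀ x, x ∉ S → Equiv.swap i j x = x := by
  intro x hx
  exact Equiv.swap_apply_of_ne_of_ne (fun h => hx (by rw [h]; exact hi))
    (fun h => hx (by rw [h]; exact hj))

theorem inv_mono {S T : Finset (Fin n)} (h : S ⊆ T) : Inv p T ≤ Inv p S := by
  intro x hx s hs
  exact hx s fun y hy => hs y fun h' => hy (h h')

/-- permutations of `S` permute the translates of a vector fixed by `Sym (S \ l)` -/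
theorem tr {S : Finset (Fin n)} {l : Fin n} (hl : l ∈ S) {x : E} (hx : x ∈ Inv p (S.erase l))
    {s : Equiv.Perm (Fin n)} (hs : ∀ x, x ∉ S → s x = x) {b : Fin n} (hb : b ∈ S) :
    p s (p (Equiv.swap l b) x) = p (Equiv.swap l (s b)) x := by
  have hsb := supp_mem hs hb
  have h1 : p (Equiv.swap l (s b) * s * Equiv.swap l b) x = x := by
    refine hx _ fun y hy => ?_
    simp only [Equiv.Perm.mul_apply]
    by_cases hyl : y = l
    · rw [hyl, Equiv.swap_apply_left, Equiv.swap_apply_right]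
    · have hyS : y ∉ S := fun h => hy (Finset.mem_erase.2 ⟨hyl, h⟩)
      rw [supp_swap hl hb y hyS, hs y hyS, supp_swap hl hsb y hyS]
  calc p s (p (Equiv.swap l b) x) = p (s * Equiv.swap l b) x := p_mul _ _ _
    _ = p (Equiv.swap l (s b) * (Equiv.swap l (s b) * s * Equiv.swap l b)) x := by
        rw [mul_assoc, ← mul_assoc (Equiv.swap l (s b)), Equiv.swap_mul_self, one_mul]
    _ = p (Equiv.swap l (s b)) (p (Equiv.swap l (s b) * s * Equiv.swap l b) x) :=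
        (p_mul _ _ _).symm
    _ = p (Equiv.swap l (s b)) x := by rw [h1]

theorem sum_comp {M : Type} [AddCommMonoid M] {S : Finset (Fin n)} {s : Equiv.Perm (Fin n)}
    (hs : ∀ x, x ∉ S → s x = x) (g : Fin n → M) : ∑ c ∈ S, g (s c) = ∑ c ∈ S, g c := by
  refine Finset.sum_nbij' (fun c => s c) (fun c => s⁻¹ c) (fun c hc => supp_mem hs hc)
    (fun c hc => supp_mem (supp_inv hs) hc) (fun c _ => ?_) (fun c _ => ?_) (fun c _ => rfl)
  · simp
  · simp

/-- Gram matrix of the translates -/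
theorem gram (hp : ∀ s x, ‖p s x‖ = ‖x‖) {S : Finset (Fin n)} {l : Fin n} (hl : l ∈ S)
    {x y : E} (hx : x ∈ Inv p (S.erase l)) (hy : y ∈ Inv p (S.erase l))
    (hy0 : ∀ h ∈ Inv p S, inner ℂ h y = 0) {b c : Fin n} (hb : b ∈ S) (hc : c ∈ S) (hbc : b ≠ c) :
    ((S.card : ℂ) - 1) * inner ℂ (p (Equiv.swap l b) x) (p (Equiv.swap l c) y) =
      - inner ℂ x y := by
  -- the sum of the translates vanishes
  set h : E := ∑ a ∈ S, p (Equiv.swap l a) y with hh
  have hinv : h ∈ Inv p S := by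
    intro s hs
    rw [hh, map_sum, Finset.sum_congr rfl fun a ha => tr hl hy hs ha]
    exact sum_comp hs fun a => p (Equiv.swap l a) y
  have h0 : h = 0 := by
    have e1 : inner ℂ h h = 0 := by
      conv_lhs => rw [hh]
      rw [inner_sum]
      refine Finset.sum_eq_zero fun a ha => ?_
      rw [inner_p_right hp, hinv _ (supp_inv (supp_swap hl ha))]
      exact hy0 h hinv
    exact inner_self_eq_zero.1 e1
  have e2 : ∑ a ∈ S, inner ℂ (p (Equiv.swap l b) x) (p (Equiv.swap l a) y) = 0 := by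
    rw [← inner_sum, ← hh, h0, inner_zero_right]
  have e3 : ∀ a ∈ S.erase b, inner ℂ (p (Equiv.swap l b) x) (p (Equiv.swap l a) y) =
      inner ℂ (p (Equiv.swap l b) x) (p (Equiv.swap l c) y) := by
    intro a ha
    obtain ⟨hab, haS⟩ := Finset.mem_erase.1 ha
    have hs := supp_swap haS hc
    have f1 := tr hl hx hs hb
    have f2 := tr hl hy hs haS
    rw [Equiv.swap_apply_of_ne_of_ne hab.symm hbc] at f1
    rw [Equiv.swap_apply_left] at f2
    rw [← inner_p hp (Equiv.swap a c), f1, f2]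
  rw [← Finset.add_sum_erase S _ hb, inner_p hp, Finset.sum_congr rfl e3, Finset.sum_const,
    Finset.card_erase_of_mem hb, nsmul_eq_mul,
    Nat.cast_sub (Finset.card_pos.2 ⟨b, hb⟩), Nat.cast_one] at e2
  linear_combination e2

/-- norm of a combination of translates -/
theorem psi_norm (hp : ∀ s x, ‖p s x‖ = ‖x‖) {S : Finset (Fin n)} {l : Fin n} (hl : l ∈ S)
    (h2 : 2 ≤ S.card) (z : Fin n → E) (hz : ∀ b ∈ S, z b ∈ Inv p (S.erase l))
    (hz0 : ∀ b ∈ S, ∀ h ∈ Inv p S, inner ℂ h (z b) = 0) :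
    ((S.card : ℝ) - 1) * ‖∑ b ∈ S, p (Equiv.swap l b) (z b)‖ ^ 2 =
      S.card * ∑ b ∈ S, ‖z b‖ ^ 2 - ‖∑ b ∈ S, z b‖ ^ 2 := by
  have hN : ((S.card : ℂ) - 1) ≠ 0 := by
    have : (S.card : ℝ) - 1 ≠ 0 := by
      have : (2 : ℝ) ≤ S.card := by exact_mod_cast h2
      linarith
    exact_mod_cast this
  have key : ((S.card : ℂ) - 1) * inner ℂ (∑ b ∈ S, p (Equiv.swap l b) (z b))
      (∑ b ∈ S, p (Equiv.swap l b) (z b)) =
      S.card * ∑ b ∈ S, inner ℂ (z b) (z b) - inner ℂ (∑ b ∈ S, z b) (∑ b ∈ S, z b) := by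
    have e1 : ∀ b ∈ S, ∀ c ∈ S, ((S.card : ℂ) - 1) *
        inner ℂ (p (Equiv.swap l b) (z b)) (p (Equiv.swap l c) (z c)) =
        (if c = b then (S.card : ℂ) * inner ℂ (z b) (z b) else 0) - inner ℂ (z b) (z c) := by
      intro b hb c hc
      by_cases hbc : c = b
      · rw [if_pos hbc, hbc, inner_p hp]; ring
      · rw [if_neg hbc, gram hp hl (hz b hb) (hz c hc) (hz0 c hc) hb hc (Ne.symm hbc)]; ring
    have e2 : ∀ v : Fin n → E, inner ℂ (∑ b ∈ S, v b) (∑ b ∈ S, v b) =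
        ∑ b ∈ S, ∑ c ∈ S, inner ℂ (v b) (v c) := by
      intro v
      rw [sum_inner]
      exact Finset.sum_congr rfl fun b _ => inner_sum _ _ _
    rw [e2 fun b => p (Equiv.swap l b) (z b), e2 z, Finset.mul_sum, Finset.mul_sum,
      ← Finset.sum_sub_distrib]
    refine Finset.sum_congr rfl fun b hb => ?_
    rw [Finset.mul_sum, Finset.sum_congr rfl (e1 b hb), Finset.sum_sub_distrib,
      Finset.sum_ite_eq' S b, if_pos hb]
  have e4 : ∀ v : E, (inner ℂ v v : ℂ) = ((‖v‖ ^ 2 : ℝ) : ℂ) := by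
    intro v
    rw [inner_self_eq_norm_sq_to_K]
    push_cast
    rfl
  simp only [e4] at key
  exact_mod_cast key

theorem psi_swap {S : Finset (Fin n)} {l : Fin n} (hl : l ∈ S)
    (z : Fin n → E) (hz : ∀ b ∈ S, z b ∈ Inv p (S.erase l)) {i j : Fin n} (hi : i ∈ S)
    (hj : j ∈ S) :
    ∑ b ∈ S, p (Equiv.swap l b) (z b) - p (Equiv.swap i j) (∑ b ∈ S, p (Equiv.swap l b) (z b)) =
      ∑ b ∈ S, p (Equiv.swap l b) (z b - z (Equiv.swap i j b)) := by
  have hs := supp_swap hi hj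
  have e1 : p (Equiv.swap i j) (∑ b ∈ S, p (Equiv.swap l b) (z b)) =
      ∑ b ∈ S, p (Equiv.swap l b) (z (Equiv.swap i j b)) := by
    rw [map_sum, Finset.sum_congr rfl fun b hb => tr hl (hz b hb) hs hb]
    rw [← sum_comp hs fun b => p (Equiv.swap l b) (z (Equiv.swap i j b))]
    refine Finset.sum_congr rfl fun b _ => ?_
    rw [Equiv.swap_apply_self]
  rw [e1, ← Finset.sum_sub_distrib]
  exact Finset.sum_congr rfl fun b _ => by rw [map_sub]

theorem psi_swap_norm (hp : ∀ s x, ‖p s x‖ = ‖x‖) {S : Finset (Fin n)} {l : Fin n} (hl : l ∈ S)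
    (h2 : 2 ≤ S.card) (z : Fin n → E) (hz : ∀ b ∈ S, z b ∈ Inv p (S.erase l))
    (hz0 : ∀ b ∈ S, ∀ h ∈ Inv p S, inner ℂ h (z b) = 0) {i j : Fin n} (hi : i ∈ S) (hj : j ∈ S) :
    ((S.card : ℝ) - 1) * ‖∑ b ∈ S, p (Equiv.swap l b) (z b) -
      p (Equiv.swap i j) (∑ b ∈ S, p (Equiv.swap l b) (z b))‖ ^ 2 =
      2 * S.card * ‖z i - z j‖ ^ 2 := by
  have hs := supp_swap hi hj
  rw [psi_swap hl z hz hi hj]
  have a1 : ∀ b ∈ S, z b - z (Equiv.swap i j b) ∈ Inv p (S.erase l) := fun b hb =>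
    Submodule.sub_mem _ (hz b hb) (hz _ (supp_mem hs hb))
  have a2 : ∀ b ∈ S, ∀ h ∈ Inv p S, inner ℂ h (z b - z (Equiv.swap i j b)) = 0 := by
    intro b hb h hh
    rw [inner_sub_right, hz0 b hb h hh, hz0 _ (supp_mem hs hb) h hh, sub_zero]
  rw [psi_norm hp hl h2 (fun b => z b - z (Equiv.swap i j b)) a1 a2, Finset.sum_sub_distrib,
    sum_comp hs z, sub_self, norm_zero]
  by_cases hij : i = j
  · subst hij
    simp
  · have hsub : ({i, j} : Finset (Fin n)) ⊆ S := by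
      intro x hx
      rw [Finset.mem_insert, Finset.mem_singleton] at hx
      rcases hx with rfl | rfl
      · exact hi
      · exact hj
    rw [← Finset.sum_subset hsub, Finset.sum_pair hij, Equiv.swap_apply_left,
      Equiv.swap_apply_right, norm_sub_rev (z j) (z i)]
    · ring
    · intro x _ hx
      rw [Finset.mem_insert, Finset.mem_singleton, not_or] at hx
      rw [Equiv.swap_apply_of_ne_of_ne hx.1 hx.2, sub_self, norm_zero]
      ring

/-- vector valued one-body inequality -/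
theorem oneG_vec [FiniteDimensional ℂ E] {W : Fin n → Fin n → ℝ} {S : Finset (Fin n)} {lam : ℝ}
    (h : OneG W S lam) (z : Fin n → E) :
    lam * (∑ i ∈ S, ‖z i‖ ^ 2 - ‖∑ i ∈ S, z i‖ ^ 2 / S.card) ≤
      1 / 4 * ∑ i ∈ S, ∑ j ∈ S, W i j * ‖z i - z j‖ ^ 2 := by
  let B := stdOrthonormalBasis ℂ E
  have e0 : ∀ x : E, ‖x‖ ^ 2 = ∑ k, ((inner ℂ (B k) x : ℂ).re ^ 2 + (inner ℂ (B k) x : ℂ).im ^ 2) := by
    intro x
    rw [← B.sum_sq_norm_inner_right x]
    refine Finset.sum_congr rfl fun k _ => ?_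
    rw [Complex.sq_norm, Complex.normSq_apply]
    ring
  have r1 : ∀ k, lam * (∑ i ∈ S, (inner ℂ (B k) (z i) : ℂ).re ^ 2 -
      (∑ i ∈ S, (inner ℂ (B k) (z i) : ℂ).re) ^ 2 / S.card) ≤
      1 / 4 * ∑ i ∈ S, ∑ j ∈ S, W i j *
        ((inner ℂ (B k) (z i) : ℂ).re - (inner ℂ (B k) (z j) : ℂ).re) ^ 2 := fun k =>
    h fun i => (inner ℂ (B k) (z i) : ℂ).re
  have r2 : ∀ k, lam * (∑ i ∈ S, (inner ℂ (B k) (z i) : ℂ).im ^ 2 -
      (∑ i ∈ S, (inner ℂ (B k) (z i) : ℂ).im) ^ 2 / S.card) ≤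
      1 / 4 * ∑ i ∈ S, ∑ j ∈ S, W i j *
        ((inner ℂ (B k) (z i) : ℂ).im - (inner ℂ (B k) (z j) : ℂ).im) ^ 2 := fun k =>
    h fun i => (inner ℂ (B k) (z i) : ℂ).im
  have r3 := Finset.sum_le_sum fun k (_ : k ∈ Finset.univ) => add_le_add (r1 k) (r2 k)
  have L1 : ∑ i ∈ S, ‖z i‖ ^ 2 = ∑ k, (∑ i ∈ S, (inner ℂ (B k) (z i) : ℂ).re ^ 2 +
      ∑ i ∈ S, (inner ℂ (B k) (z i) : ℂ).im ^ 2) := by
    simp only [e0, ← Finset.sum_add_distrib]
    exact Finset.sum_comm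
  have L2 : ‖∑ i ∈ S, z i‖ ^ 2 = ∑ k, ((∑ i ∈ S, (inner ℂ (B k) (z i) : ℂ).re) ^ 2 +
      (∑ i ∈ S, (inner ℂ (B k) (z i) : ℂ).im) ^ 2) := by
    rw [e0]
    refine Finset.sum_congr rfl fun k _ => ?_
    rw [inner_sum, Complex.re_sum, Complex.im_sum]
  have L3 : ∑ i ∈ S, ∑ j ∈ S, W i j * ‖z i - z j‖ ^ 2 = ∑ k,
      (∑ i ∈ S, ∑ j ∈ S, W i j *
        ((inner ℂ (B k) (z i) : ℂ).re - (inner ℂ (B k) (z j) : ℂ).re) ^ 2 +
      ∑ i ∈ S, ∑ j ∈ S, W i j *
        ((inner ℂ (B k) (z i) : ℂ).im - (inner ℂ (B k) (z j) : ℂ).im) ^ 2) := by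
    simp only [← Finset.sum_add_distrib]
    refine Eq.trans ?_ Finset.sum_comm
    refine Finset.sum_congr rfl fun i _ => ?_
    refine Eq.trans ?_ Finset.sum_comm
    refine Finset.sum_congr rfl fun j _ => ?_
    rw [e0, Finset.mul_sum]
    refine Finset.sum_congr rfl fun k _ => ?_
    rw [inner_sub_right, Complex.sub_re, Complex.sub_im]
    ring
  rw [L1, L2, L3]
  calc lam * (∑ k, (∑ i ∈ S, (inner ℂ (B k) (z i) : ℂ).re ^ 2 +
        ∑ i ∈ S, (inner ℂ (B k) (z i) : ℂ).im ^ 2) -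
        (∑ k, ((∑ i ∈ S, (inner ℂ (B k) (z i) : ℂ).re) ^ 2 +
          (∑ i ∈ S, (inner ℂ (B k) (z i) : ℂ).im) ^ 2)) / S.card)
      = ∑ k, (lam * (∑ i ∈ S, (inner ℂ (B k) (z i) : ℂ).re ^ 2 -
          (∑ i ∈ S, (inner ℂ (B k) (z i) : ℂ).re) ^ 2 / S.card) +
        lam * (∑ i ∈ S, (inner ℂ (B k) (z i) : ℂ).im ^ 2 -
          (∑ i ∈ S, (inner ℂ (B k) (z i) : ℂ).im) ^ 2 / S.card)) := by
        rw [Finset.sum_div, ← Finset.sum_sub_distrib, Finset.mul_sum]
        exact Finset.sum_congr rfl fun k _ => by ring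
    _ ≤ ∑ k, (1 / 4 * ∑ i ∈ S, ∑ j ∈ S, W i j *
          ((inner ℂ (B k) (z i) : ℂ).re - (inner ℂ (B k) (z j) : ℂ).re) ^ 2 +
        1 / 4 * ∑ i ∈ S, ∑ j ∈ S, W i j *
          ((inner ℂ (B k) (z i) : ℂ).im - (inner ℂ (B k) (z j) : ℂ).im) ^ 2) := r3
    _ = 1 / 4 * ∑ k, (∑ i ∈ S, ∑ j ∈ S, W i j *
          ((inner ℂ (B k) (z i) : ℂ).re - (inner ℂ (B k) (z j) : ℂ).re) ^ 2 +
        ∑ i ∈ S, ∑ j ∈ S, W i j *
          ((inner ℂ (B k) (z i) : ℂ).im - (inner ℂ (B k) (z j) : ℂ).im) ^ 2) := by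
        rw [Finset.mul_sum]
        exact Finset.sum_congr rfl fun k _ => by ring

/-- representation of the vectors of the one-body part -/
theorem rep [FiniteDimensional ℂ E] (hp : ∀ s x, ‖p s x‖ = ‖x‖) {S : Finset (Fin n)} {l : Fin n}
    (hl : l ∈ S) (u : E) (hu : u ∈ (⨆ i ∈ S, Inv p (S.erase i)))
    (hu0 : ∀ h ∈ Inv p S, inner ℂ h u = 0) :
    ∃ z : Fin n → E, (∀ b ∈ S, z b ∈ Inv p (S.erase l)) ∧
      (∀ b ∈ S, ∀ h ∈ Inv p S, inner ℂ h (z b) = 0) ∧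
      u = ∑ b ∈ S, p (Equiv.swap l b) (z b) := by
  obtain ⟨μ, hμ⟩ := (Submodule.mem_iSup_finset_iff_exists_sum _ _).1 hu
  set Q := (Inv p S).starProjection with hQ
  have hQu : Q u = 0 := by
    have h1 : inner ℂ (Q u) (u - Q u) = 0 :=
      Submodule.inner_right_of_mem_orthogonal (Submodule.starProjection_apply_mem _ u)
        (Submodule.sub_starProjection_mem_orthogonal u)
    have h2 : inner ℂ (Q u) u = 0 := hu0 _ (Submodule.starProjection_apply_mem _ u)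
    rw [inner_sub_right, h2, zero_sub, neg_eq_zero] at h1
    exact inner_self_eq_zero.1 h1
  refine ⟨fun b => p (Equiv.swap l b) ((μ b : E) - Q (μ b)), ?_, ?_, ?_⟩
  · intro b hb s hs
    have hx : (μ b : E) - Q (μ b) ∈ Inv p (S.erase b) :=
      Submodule.sub_mem _ (μ b).2 (inv_mono (Finset.erase_subset b S)
        (Submodule.starProjection_apply_mem _ _))
    have hfix : p (Equiv.swap l b * s * Equiv.swap l b) ((μ b : E) - Q (μ b)) =
        (μ b : E) - Q (μ b) := by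
      refine hx _ fun y hy => ?_
      simp only [Equiv.Perm.mul_apply]
      by_cases hyb : y = b
      · rw [hyb, Equiv.swap_apply_right, hs l (Finset.notMem_erase l S), Equiv.swap_apply_left]
      · have hyS : y ∉ S := fun h => hy (Finset.mem_erase.2 ⟨hyb, h⟩)
        rw [supp_swap hl hb y hyS, hs y fun h => hyS (Finset.mem_of_mem_erase h),
          supp_swap hl hb y hyS]
    calc p s (p (Equiv.swap l b) ((μ b : E) - Q (μ b)))
        = p (Equiv.swap l b) (p (Equiv.swap l b * s * Equiv.swap l b)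
            ((μ b : E) - Q (μ b))) := by
          rw [p_mul, p_mul, mul_assoc, ← mul_assoc (Equiv.swap l b), Equiv.swap_mul_self, one_mul]
      _ = _ := by rw [hfix]
  · intro b hb h hh
    rw [inner_p_right hp, hh _ (supp_inv (supp_swap hl hb))]
    exact Submodule.inner_right_of_mem_orthogonal hh (Submodule.sub_starProjection_mem_orthogonal _)
  · have e1 : ∀ b ∈ S, p (Equiv.swap l b) (p (Equiv.swap l b) ((μ b : E) - Q (μ b))) =
        (μ b : E) - Q (μ b) := by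
      intro b _
      rw [p_mul, Equiv.swap_mul_self, p_one]
    rw [Finset.sum_congr rfl e1, Finset.sum_sub_distrib, hμ, ← map_sum, hμ, hQu, sub_zero]

end

/-- row ISO -/
theorem iso : ISOStmt := by
  intro n E _ _ _ p hp S h2 W lam hW u hu hu0
  obtain ⟨l, hl⟩ : S.Nonempty := Finset.card_pos.1 (by omega)
  obtain ⟨z, hz, hz0, rfl⟩ := rep hp hl u hu hu0
  have hN : (0 : ℝ) < (S.card : ℝ) - 1 := by
    have : (2 : ℝ) ≤ S.card := by exact_mod_cast h2
    linarith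
  have hN' : (0 : ℝ) < (S.card : ℝ) := by linarith
  have k1 := psi_norm hp hl h2 z hz hz0
  have k2 := oneG_vec hW z
  have k3 : ((S.card : ℝ) - 1) * En p W S (∑ b ∈ S, p (Equiv.swap l b) (z b)) =
      S.card * (1 / 4 * ∑ i ∈ S, ∑ j ∈ S, W i j * ‖z i - z j‖ ^ 2) := by
    unfold En
    rw [mul_left_comm, Finset.mul_sum, mul_left_comm, Finset.mul_sum, Finset.mul_sum,
      Finset.mul_sum]
    refine Finset.sum_congr rfl fun i hi => ?_
    rw [Finset.mul_sum, Finset.mul_sum, Finset.mul_sum, Finset.mul_sum]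
    refine Finset.sum_congr rfl fun j hj => ?_
    have k4 := psi_swap_norm hp hl h2 z hz hz0 hi hj
    linear_combination (1 / 8 * W i j) * k4
  have k5 : ((S.card : ℝ) - 1) * (lam * ‖∑ b ∈ S, p (Equiv.swap l b) (z b)‖ ^ 2) =
      S.card * (lam * (∑ i ∈ S, ‖z i‖ ^ 2 - ‖∑ i ∈ S, z i‖ ^ 2 / S.card)) := by
    have : (S.card : ℝ) * (‖∑ i ∈ S, z i‖ ^ 2 / S.card) = ‖∑ i ∈ S, z i‖ ^ 2 := by
      field_simp
    linear_combination lam * k1 + lam * this
  refine le_of_mul_le_mul_left ?_ hN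
  rw [k5, k3]
  exact mul_le_mul_of_nonneg_left k2 hN'.le

end Pool.Agent.GRA.S.H02
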