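import Pool.Agent.GRA.StmtsK

/-!
MP_3b0ba7_pr, squad GRA, row KW2: the weight `k (e_q - e_p)` of the Bose representation.
-/

set_option autoImplicit false

namespace Pool.Agent.GRA.H02

open Pool.Agent.GRA Pool.Agent.Helper64_FR Pool.Agent.UTR Pool.Agent.BSE Matrix Finset

/-- the weight `k (e_q - e_p)` -/
noncomputable def nuk {n : ℕ} (k : ℕ) (p q : Fin n) (i : Fin n) : ℝ :=
  if i = q then (k : ℝ) else if i = p then -(k : ℝ) else 0

theorem sum_nuk {n : ℕ} (k : ℕ) (p q : Fin n) (hpq : p ≠ q) (F : ℝ → ℝ) :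
    ∑ i, F (nuk k p q i) = F k + F (-k) + ((n : ℝ) - 2) * F 0 := by
  have h1 : ∀ i : Fin n, F (nuk k p q i) =
      F 0 + (if i = q then F k - F 0 else 0) + (if i = p then F (-k) - F 0 else 0) := by
    intro i
    unfold nuk
    by_cases hq : i = q
    · have hp : ¬ i = p := fun h => hpq (h.symm.trans hq)
      rw [if_pos hq, if_pos hq, if_neg hp]
      ring
    · by_cases hp : i = p
      · rw [if_neg hq, if_pos hp, if_neg hq, if_pos hp]
        ring
      · rw [if_neg hq, if_neg hp, if_neg hq, if_neg hp]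
        ring
  rw [Finset.sum_congr rfl fun i _ => h1 i, Finset.sum_add_distrib, Finset.sum_add_distrib,
    Finset.sum_ite_eq', Finset.sum_ite_eq', if_pos (Finset.mem_univ _), if_pos (Finset.mem_univ _),
    Finset.sum_const, Finset.card_univ, Fintype.card_fin, nsmul_eq_mul]
  ring

theorem nuk_val {n : ℕ} (k : ℕ) (p q : Fin n) (hpq : p ≠ q) :
    ∑ i, nuk k p q i ^ 2 + (1 / 2) * ∑ i, ∑ j, |nuk k p q i - nuk k p q j| =
      2 * (k : ℝ) * (k + n - 1) := by
  have hk : (0 : ℝ) ≤ k := Nat.cast_nonneg k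
  rw [sum_nuk k p q hpq (fun x => x ^ 2)]
  have h1 : ∀ i : Fin n, ∑ j, |nuk k p q i - nuk k p q j| =
      |nuk k p q i - k| + |nuk k p q i + k| + ((n : ℝ) - 2) * |nuk k p q i| := by
    intro i
    rw [sum_nuk k p q hpq (fun x => |nuk k p q i - x|), sub_neg_eq_add, sub_zero]
  rw [Finset.sum_congr rfl fun i _ => h1 i,
    sum_nuk k p q hpq (fun x => |x - k| + |x + k| + ((n : ℝ) - 2) * |x|)]
  have e1 : |(k : ℝ) - k| = 0 := by rw [sub_self, abs_zero]
  have e2 : |(k : ℝ) + k| = 2 * k := by rw [abs_of_nonneg (by linarith)]; ring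
  have e3 : |(k : ℝ)| = k := abs_of_nonneg hk
  have e4 : |-(k : ℝ) - k| = 2 * k := by
    rw [show -(k : ℝ) - k = -(2 * k) by ring, abs_neg, abs_of_nonneg (by linarith)]
  have e5 : |-(k : ℝ) + k| = 0 := by rw [neg_add_cancel, abs_zero]
  have e6 : |-(k : ℝ)| = k := by rw [abs_neg, e3]
  have e7 : |(0 : ℝ) - k| = k := by rw [zero_sub, e6]
  have e8 : |(0 : ℝ) + k| = k := by rw [zero_add, e3]
  rw [e1, e2, e3, e4, e5, e6, e7, e8, abs_zero]
  ring

theorem nuk_pos {n : ℕ} (k : ℕ) (p q : Fin n) (hpq : p ≠ q) :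
    ∑ i, max (nuk k p q i) 0 = k := by
  have hk : (0 : ℝ) ≤ k := Nat.cast_nonneg k
  rw [sum_nuk k p q hpq (fun x => max x 0), max_eq_left hk, max_eq_right (by linarith),
    max_self]
  ring

theorem diag_conj_apply {n : ℕ} (d : Fin n → ℂ) (M : Matrix (Fin n) (Fin n) ℂ) (g : UU n)
    (hg : (g : Matrix (Fin n) (Fin n) ℂ) = Matrix.diagonal d) (p q : Fin n) :
    (((g⁻¹ : UU n) : Matrix (Fin n) (Fin n) ℂ) * M * (g : Matrix (Fin n) (Fin n) ℂ)) p q =
      star (d p) * M p q * d q := by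
  have h1 : ((g⁻¹ : UU n) : Matrix (Fin n) (Fin n) ℂ) = Matrix.diagonal (star d) := by
    have h2 : ((g⁻¹ : UU n) : Matrix (Fin n) (Fin n) ℂ) =
        star (g : Matrix (Fin n) (Fin n) ℂ) := rfl
    rw [h2, hg, Matrix.star_eq_conjTranspose, Matrix.diagonal_conjTranspose]
  rw [h1, hg, Matrix.mul_diagonal, Matrix.diagonal_mul]
  rfl

/-- row KW2 -/
theorem kw2 (hW : WTDStmt) (hM : MWTStmt) : KW2Stmt := by
  intro n k ρ D C hD hC hB
  obtain ⟨p, q, hpq, T, hT⟩ := hB
  have hmem : orb k p q (1 : UU n) ∈ LinearMap.range T := by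
    rw [hT.range_eq]
    exact Submodule.subset_span ⟨1, rfl⟩
  obtain ⟨v₀, hv₀⟩ := hmem
  have horb : ∀ M : Matrix (Fin n) (Fin n) ℂ, T v₀ M = M p q ^ k := by
    intro M
    rw [hv₀]
    unfold orb
    rw [inv_one]
    show ((1 : Matrix (Fin n) (Fin n) ℂ) * M * (1 : Matrix (Fin n) (Fin n) ℂ)) p q ^ k = _
    rw [one_mul, mul_one]
  have hv0 : v₀ ≠ 0 := by
    intro h
    have h1 := horb (Matrix.single p q 1)
    rw [h, map_zero, Matrix.single_apply_same, one_pow] at h1
    exact one_ne_zero h1.symm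
  set v : ρ.Sp := WithLp.toLp 2 v₀ with hv
  have hvne : v ≠ 0 := by
    intro h
    apply hv0
    have h1 : WithLp.ofLp v = (0 : Fin ρ.dim → ℂ) := by rw [h]; rfl
    exact h1
  have hwt : wt ρ D (nuk k p q) v := by
    intro i
    refine (hW n ρ D hD i v (nuk k p q i)).2 ?_
    intro θ g hg
    have h1 : ρ.mat g *ᵥ v₀ = Complex.exp ((nuk k p q i : ℂ) * θ * Complex.I) • v₀ := by
      apply hT.inj
      funext M
      rw [hT.equiv, horb, diag_conj_apply _ M g hg p q, map_smul, Pi.smul_apply, horb, smul_eq_mul,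
        mul_pow, mul_pow]
      have hstar : star (Complex.exp (θ * Complex.I)) = Complex.exp (-(θ * Complex.I)) := by
        rw [Complex.star_def, ← Complex.exp_conj, map_mul, Complex.conj_ofReal, Complex.conj_I,
          mul_neg]
      unfold nuk
      by_cases hq : i = q
      · have hp : ¬ p = i := fun h => hpq (h.trans hq)
        rw [if_pos hq, if_neg hp, if_pos hq.symm, star_one, one_pow, one_mul, ← Complex.exp_nat_mul,
          mul_comm]
        congr 2
        push_cast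
        ring
      · have hq' : ¬ q = i := fun h => hq h.symm
        by_cases hp : i = p
        · rw [if_neg hq, if_neg hq', if_pos hp, if_pos hp.symm, one_pow, mul_one, hstar,
            ← Complex.exp_nat_mul]
          congr 2
          push_cast
          ring
        · have hp' : ¬ p = i := fun h => hp h.symm
          rw [if_neg hq, if_neg hq', if_neg hp, if_neg hp', star_one, one_pow, one_mul, mul_one]
          simp
    have h2 : ρ.op g v = WithLp.toLp 2 (ρ.mat g *ᵥ v₀) := rfl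
    rw [h2, h1]
    rfl
  refine ⟨?_, nuk k p q, v, hvne, hwt, nuk_pos k p q hpq⟩
  rw [← nuk_val k p q hpq]
  exact (hM n ρ D C hD hC _ v hvne hwt).1

end Pool.Agent.GRA.H02
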