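import Pool.Agent.GRA.StmtsM
import Pool.Agent.Helper64_FR.DERP
import Pool.Agent.Helper2_GRA.EXPV

/-!
MP_3b0ba7_pr, squad GRA, row MIN: the embedding intertwines the derived representations.
-/

set_option autoImplicit false

open scoped Matrix.Norms.Operator

namespace Pool.Agent.GRA.H02

open Pool.Agent.GRA Pool.Agent.Helper64_FR Pool.Agent.Helper64_FR.DERP Pool.Agent.UTR Matrix Finset

/-- `A ↦ diag(A, 0)` as a linear map -/
noncomputable def eL (n : ℕ) :
    Matrix (Fin n) (Fin n) ℂ →ₗ[ℂ] Matrix (Fin (n + 1)) (Fin (n + 1)) ℂ where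
  toFun A := embM A 0
  map_add' A B := by
    ext i j
    rw [Matrix.add_apply]
    refine Fin.lastCases ?_ (fun i' => ?_) i <;> refine Fin.lastCases ?_ (fun j' => ?_) j <;>
      simp
  map_smul' c A := by
    ext i j
    rw [Matrix.smul_apply]
    refine Fin.lastCases ?_ (fun i' => ?_) i <;> refine Fin.lastCases ?_ (fun j' => ?_) j <;>
      simp

theorem eL_apply {n : ℕ} (A : Matrix (Fin n) (Fin n) ℂ) : eL n A = embM A 0 := rfl

theorem EE_ap {n : ℕ} (i j a b : Fin n) :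
    (EE i j : Matrix (Fin n) (Fin n) ℂ) a b = if i = a ∧ j = b then 1 else 0 :=
  Matrix.single_apply i j 1 a b

theorem embM_one_eq {n : ℕ} (A : Matrix (Fin n) (Fin n) ℂ) :
    embM A 1 = eL n A + EE (Fin.last n) (Fin.last n) := by
  ext i j
  rw [Matrix.add_apply, eL_apply]
  have e0 := EE_ap (Fin.last n) (Fin.last n)
  have h1 : ∀ j' : Fin n, ¬ (Fin.last n = j'.castSucc) := fun j' => (Fin.castSucc_lt_last j').ne'
  refine Fin.lastCases ?_ (fun i' => ?_) i <;> refine Fin.lastCases ?_ (fun j' => ?_) j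
  · refine (embM_ll A 1).trans ?_
    refine Eq.trans ?_ (congrArg₂ (fun x y : ℂ => x + y) (embM_ll A 0).symm (e0 _ _).symm)
    simp
  · refine (embM_lc A 1 j').trans ?_
    refine Eq.trans ?_ (congrArg₂ (fun x y : ℂ => x + y) (embM_lc A 0 j').symm (e0 _ _).symm)
    simp [h1 j']
  · refine (embM_cl A 1 i').trans ?_
    refine Eq.trans ?_ (congrArg₂ (fun x y : ℂ => x + y) (embM_cl A 0 i').symm (e0 _ _).symm)
    simp [h1 i']
  · refine (embM_cc A 1 i' j').trans ?_
    refine Eq.trans ?_ (congrArg₂ (fun x y : ℂ => x + y) (embM_cc A 0 i' j').symm (e0 _ _).symm)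
    simp [h1 i']

theorem eL_pow {n : ℕ} (A : Matrix (Fin n) (Fin n) ℂ) (m : ℕ) :
    eL n A ^ (m + 1) = eL n (A ^ (m + 1)) := by
  induction m with
  | zero => rw [zero_add, pow_one, pow_one]
  | succ m ih =>
    rw [pow_succ, ih, pow_succ A (m + 1), eL_apply, eL_apply, eL_apply]
    have h := embM_mul (A ^ (m + 1)) A 0 0
    rw [mul_zero] at h
    exact h.symm

theorem exp_eL {n : ℕ} (X : Matrix (Fin n) (Fin n) ℂ) :
    NormedSpace.exp (eL n X) = embM (NormedSpace.exp X) 1 := by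
  have h1 : HasSum (fun m : ℕ => ((m.factorial : ℂ)⁻¹) • X ^ m) (NormedSpace.exp X) :=
    NormedSpace.exp_series_hasSum_exp' (𝕂 := ℂ) X
  have h2 : HasSum (fun m : ℕ => ((m.factorial : ℂ)⁻¹) • (eL n X) ^ m)
      (NormedSpace.exp (eL n X)) :=
    NormedSpace.exp_series_hasSum_exp' (𝕂 := ℂ) (eL n X)
  have h3 := h1.mapL (LinearMap.toContinuousLinearMap (eL n))
  have h4 : HasSum (fun m : ℕ => if m = 0 then
      (EE (Fin.last n) (Fin.last n) : Matrix (Fin (n + 1)) (Fin (n + 1)) ℂ) else 0)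
      (EE (Fin.last n) (Fin.last n)) := by
    have := hasSum_ite_eq (0 : ℕ)
      (EE (Fin.last n) (Fin.last n) : Matrix (Fin (n + 1)) (Fin (n + 1)) ℂ)
    exact this
  have h5 := h3.add h4
  have h6 : (fun m : ℕ => (LinearMap.toContinuousLinearMap (eL n))
      (((m.factorial : ℂ)⁻¹) • X ^ m) + if m = 0 then
      (EE (Fin.last n) (Fin.last n) : Matrix (Fin (n + 1)) (Fin (n + 1)) ℂ) else 0) =
      fun m : ℕ => ((m.factorial : ℂ)⁻¹) • (eL n X) ^ m := by
    funext m
    show eL n (((m.factorial : ℂ)⁻¹) • X ^ m) + _ = _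
    rw [map_smul]
    cases m with
    | zero =>
      rw [pow_zero, pow_zero, if_pos rfl, Nat.factorial_zero, Nat.cast_one, inv_one, one_smul,
        one_smul, ← embM_one_eq, embM_one]
    | succ m =>
      rw [if_neg (Nat.succ_ne_zero m), add_zero, eL_pow]
  rw [h6] at h5
  have h7 := h2.unique h5
  rw [h7, embM_one_eq]
  rfl

theorem star_eL {n : ℕ} (X : Matrix (Fin n) (Fin n) ℂ) (hX : star X = -X) :
    star (eL n X) = -eL n X := by
  rw [eL_apply, star_embM, hX, map_zero, ← eL_apply, map_neg]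
  rfl

theorem min_skew {n : ℕ} (ρ : URep (n + 1)) (σ : URep n) (T : σ.Sp →ₗᵢ[ℂ] ρ.Sp)
    (hT : Cmp ρ σ T) (D : Matrix (Fin (n + 1)) (Fin (n + 1)) ℂ →ₗ[ℂ] (ρ.Sp →L[ℂ] ρ.Sp))
    (D' : Matrix (Fin n) (Fin n) ℂ →ₗ[ℂ] (σ.Sp →L[ℂ] σ.Sp)) (hD : IsDer ρ D) (hD' : IsDer σ D')
    (X : Matrix (Fin n) (Fin n) ℂ) (hX : star X = -X) (x : σ.Sp) :
    T (D' X x) = D (eL n X) (T x) := by
  have h1 := hasDerivAt_exp_vec (D' X) x
  have h2 := (T.toContinuousLinearMap.hasFDerivAt.restrictScalars ℝ).comp_hasDerivAt (0 : ℝ) h1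
  have h3 := hasDerivAt_exp_vec (D (eL n X)) (T x)
  have h4 : (fun θ : ℝ => (NormedSpace.exp ((θ : ℂ) • D (eL n X))) (T x)) =
      fun θ : ℝ => T ((NormedSpace.exp ((θ : ℂ) • D' X)) x) := by
    funext θ
    have hs : star ((θ : ℂ) • X) = -((θ : ℂ) • X) := by
      rw [star_smul, hX, Complex.star_def, Complex.conj_ofReal, smul_neg]
    have e1 : σ.op ⟨NormedSpace.exp ((θ : ℂ) • X), exp_unitary _ hs⟩ =
        NormedSpace.exp (D' ((θ : ℂ) • X)) := hD'.exp_eq _ _ hs rfl
    have e2 : ρ.op (emb ⟨NormedSpace.exp ((θ : ℂ) • X), exp_unitary _ hs⟩) =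
        NormedSpace.exp (D (eL n ((θ : ℂ) • X))) := by
      refine hD.exp_eq _ _ (star_eL _ hs) ?_
      rw [exp_eL]
      rfl
    rw [← map_smul, ← map_smul, ← map_smul, ← e1, ← e2, hT.eqv]
  rw [h4] at h3
  exact h2.unique h3

theorem star_EE' {n : ℕ} (i j : Fin n) :
    star (EE i j : Matrix (Fin n) (Fin n) ℂ) = EE j i := by
  rw [Matrix.star_eq_conjTranspose, Matrix.conjTranspose_single, star_one]

theorem eL_EE {n : ℕ} (i j : Fin n) : eL n (EE i j) = EE i.castSucc j.castSucc := by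
  ext a b
  rw [eL_apply]
  have e0 := EE_ap i.castSucc j.castSucc
  have h1 : ∀ j' : Fin n, ¬ (j'.castSucc = Fin.last n) := fun j' => (Fin.castSucc_lt_last j').ne
  refine Fin.lastCases ?_ (fun i' => ?_) a <;> refine Fin.lastCases ?_ (fun j' => ?_) b
  · refine (embM_ll _ 0).trans ?_
    refine Eq.trans ?_ (e0 _ _).symm
    simp [h1 i]
  · refine (embM_lc _ 0 j').trans ?_
    refine Eq.trans ?_ (e0 _ _).symm
    simp [h1 i]
  · refine (embM_cl _ 0 i').trans ?_
    refine Eq.trans ?_ (e0 _ _).symm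
    simp [h1 j]
  · refine (embM_cc _ 0 i' j').trans ?_
    refine Eq.trans ?_ (e0 _ _).symm
    refine (EE_ap i j i' j').trans ?_
    simp

/-- row MIN -/
theorem min : MINStmt := by
  intro n ρ σ T hT D D' hD hD' i j x
  have hA : star ((EE i j : Matrix (Fin n) (Fin n) ℂ) - EE j i) = -(EE i j - EE j i) := by
    rw [star_sub, star_EE', star_EE', neg_sub]
  have hB : star (Complex.I • ((EE i j : Matrix (Fin n) (Fin n) ℂ) + EE j i)) =
      -(Complex.I • (EE i j + EE j i)) := by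
    rw [star_smul, star_add, star_EE', star_EE', Complex.star_def, Complex.conj_I, neg_smul,
      add_comm]
  have h1 := min_skew ρ σ T hT D D' hD hD' _ hA x
  have h2 := min_skew ρ σ T hT D D' hD hD' _ hB x
  have h3 : (EE i j : Matrix (Fin n) (Fin n) ℂ) = (1 / 2 : ℂ) • (EE i j - EE j i) -
      (Complex.I / 2) • (Complex.I • (EE i j + EE j i)) := by
    rw [smul_smul]
    have h4 : Complex.I / 2 * Complex.I = -(1 / 2 : ℂ) := by
      rw [div_mul_eq_mul_div, Complex.I_mul_I, neg_div]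
    rw [h4, neg_smul, sub_neg_eq_add, ← smul_add]
    have h5 : (EE i j : Matrix (Fin n) (Fin n) ℂ) - EE j i + (EE i j + EE j i) =
        (2 : ℂ) • EE i j := by
      rw [two_smul]
      abel
    rw [h5, smul_smul]
    norm_num
  rw [← eL_EE, h3, map_sub, map_sub, map_sub, map_smul D', map_smul D', map_smul (eL n),
    map_smul (eL n), map_smul D, map_smul D]
  rw [_root_.sub_apply, _root_.sub_apply, _root_.smul_apply, _root_.smul_apply,
    _root_.smul_apply, _root_.smul_apply, map_sub, map_smul, map_smul, h1, h2]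

end Pool.Agent.GRA.H02
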