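import Pool.Agent.GRA.StmtsM
import Pool.Agent.Helper64_FR.DERP
import Pool.Agent.Helper64_FR.FIX
import Pool.Agent.Helper64_FR.Basic
import Pool.Agent.Helper27_UTR.GEN

/-!
MP_3b0ba7_pr, squad GRA, row MSH: weights, permutation matrices, torus.
-/

set_option autoImplicit false

namespace Pool.Agent.GRA.H02

open Pool.Agent.GRA Pool.Agent.Helper64_FR Pool.Agent.UTR Matrix Finset

theorem EE_mul_EE {n : ℕ} (i a b : Fin n) :
    (EE i i * EE a b : Matrix (Fin n) (Fin n) ℂ) = if i = a then EE a b else 0 := by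
  by_cases h : i = a
  · subst h
    rw [if_pos rfl, Matrix.single_mul_single_same, mul_one]
  · rw [if_neg h, Matrix.single_mul_single_of_ne _ _ _ _ h]

theorem EE_mul_EE' {n : ℕ} (i a b : Fin n) :
    (EE a b * EE i i : Matrix (Fin n) (Fin n) ℂ) = if i = b then EE a b else 0 := by
  by_cases h : i = b
  · subst h
    rw [if_pos rfl, Matrix.single_mul_single_same, mul_one]
  · rw [if_neg h, Matrix.single_mul_single_of_ne _ _ _ _ (fun h2 => h h2.symm)]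

/-- MSH (1) -/
theorem wt_shift {n : ℕ} (ρ : URep n)
    (D : Matrix (Fin n) (Fin n) ℂ →ₗ[ℂ] (ρ.Sp →L[ℂ] ρ.Sp)) (hD : IsDer ρ D)
    (ν : Fin n → ℝ) (v : ρ.Sp) (a b : Fin n) (hv : wt ρ D ν v) :
    wt ρ D (fun i => ν i + (if i = a then 1 else 0) - (if i = b then 1 else 0))
      (D (EE a b) v) := by
  intro i
  have h1 : D (EE i i) (D (EE a b) v) - D (EE a b) (D (EE i i) v) =
      D (EE i i * EE a b - EE a b * EE i i) v :=
    congrArg (fun T : ρ.Sp →L[ℂ] ρ.Sp => T v) (hD.comm_eq (EE i i) (EE a b))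
  rw [EE_mul_EE, EE_mul_EE', hv i, map_smul] at h1
  have h2 : D (EE i i) (D (EE a b) v) =
      ((ν i : ℝ) : ℂ) • D (EE a b) v +
        D ((if i = a then EE a b else 0) - (if i = b then EE a b else 0)) v := by
    rw [← h1]
    abel
  rw [h2]
  show _ = (((ν i + (if i = a then 1 else 0) - (if i = b then 1 else 0) : ℝ)) : ℂ) • D (EE a b) v
  by_cases ha : i = a
  · by_cases hb : i = b
    · rw [if_pos ha, if_pos hb, if_pos ha, if_pos hb, sub_self, map_zero,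
        _root_.zero_apply, add_zero, add_sub_cancel_right]
    · rw [if_pos ha, if_neg hb, if_pos ha, if_neg hb, sub_zero, sub_zero, Complex.ofReal_add,
        add_smul, Complex.ofReal_one, one_smul]
  · by_cases hb : i = b
    · rw [if_neg ha, if_pos hb, if_neg ha, if_pos hb, zero_sub, add_zero, Complex.ofReal_sub,
        sub_smul, Complex.ofReal_one, one_smul, map_neg, _root_.neg_apply, sub_eq_add_neg]
    · rw [if_neg ha, if_neg hb, if_neg ha, if_neg hb, sub_zero, map_zero,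
        _root_.zero_apply, add_zero, add_zero, sub_zero]

/-- MSH (2) -/
theorem tinv_iff {n : ℕ} (ρ : URep n)
    (D : Matrix (Fin n) (Fin n) ℂ →ₗ[ℂ] (ρ.Sp →L[ℂ] ρ.Sp)) (hD : IsDer ρ D) (v : ρ.Sp) :
    TInv ρ v ↔ wt ρ D (fun _ => 0) v := by
  constructor
  · intro h i
    have h1 : ρ.P {i} v = v := FIX.P_inv ρ {i} v (h i)
    have h2 : D (EE i i) * ρ.P {i} = 0 :=
      DERP_proof FIX_proof n ρ D hD {i} i i (Finset.mem_singleton_self i)
        (Finset.mem_singleton_self i)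
    have h3 : D (EE i i) (ρ.P {i} v) = 0 :=
      congrArg (fun T : ρ.Sp →L[ℂ] ρ.Sp => T v) h2
    rw [h1] at h3
    rw [h3, Complex.ofReal_zero, zero_smul]
  · intro h i
    refine Pool.Agent.UTR.H27.gen n ρ D hD {i} v ?_
    intro a ha b hb
    rw [Finset.mem_singleton] at ha hb
    subst ha
    subst hb
    rw [h, Complex.ofReal_zero, zero_smul]

theorem pmM_conj_EE {n : ℕ} (τ : Equiv.Perm (Fin n)) (a b : Fin n) :
    pmM τ * (EE a b) * star (pmM τ) = EE (τ a) (τ b) := by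
  have h1 : pmM τ * (EE a b) = EE (τ a) (τ b) * pmM τ := by
    ext i j
    rw [Matrix.mul_apply, Matrix.mul_apply, Finset.sum_eq_single a, Finset.sum_eq_single (τ b)]
    · simp only [pmM, Matrix.of_apply, Matrix.single_apply]
      by_cases h2 : i = τ a
      · by_cases h3 : b = j
        · simp [h2, h3]
        · have h4 : ¬ τ b = τ j := fun h5 => h3 (τ.injective h5)
          simp [h3, h4]
      · have h4 : ¬ τ a = i := fun h5 => h2 h5.symm
        simp [h2, h4]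
    · intro c _ hc
      have h4 : ¬ τ b = c := fun h5 => hc h5.symm
      simp [h4]
    · simp
    · intro c _ hc
      have h4 : ¬ a = c := fun h5 => hc h5.symm
      simp [h4]
    · simp
  rw [h1, mul_assoc, star_pmM, ← pmM_mul, mul_inv_cancel, pmM_one, mul_one]

/-- MSH (3) -/
theorem op_pm_D {n : ℕ} (ρ : URep n)
    (D : Matrix (Fin n) (Fin n) ℂ →ₗ[ℂ] (ρ.Sp →L[ℂ] ρ.Sp)) (hD : IsDer ρ D)
    (τ : Equiv.Perm (Fin n)) (a b : Fin n) (v : ρ.Sp) :
    ρ.op (pm τ) (D (EE a b) v) = D (EE (τ a) (τ b)) (ρ.op (pm τ) v) := by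
  have h1 := hD.conj_eq (pm τ) (EE a b)
  have h2 : ((pm τ : UU n) : Matrix (Fin n) (Fin n) ℂ) = pmM τ := rfl
  rw [h2, pmM_conj_EE] at h1
  exact congrArg (fun T : ρ.Sp →L[ℂ] ρ.Sp => T v) h1

/-- conjugation of an averaging projection -/
theorem P_conj {n : ℕ} (ρ : URep n) (g : UU n) (B B' : Finset (Fin n))
    (h1 : ∀ h ∈ UB B', g⁻¹ * h * g ∈ UB B) (h2 : ∀ h ∈ UB B, g * h * g⁻¹ ∈ UB B') (v : ρ.Sp) :
    ρ.op g (ρ.P B v) = ρ.P B' (ρ.op g v) := by
  have hfix : ∀ w : ρ.Sp, (∀ h ∈ UB B, ρ.op h w = w) → ∀ h ∈ UB B', ρ.op h (ρ.op g w) = ρ.op g w := by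
    intro w hw h hh
    have e1 : ρ.op h * ρ.op g = ρ.op g * ρ.op (g⁻¹ * h * g) := by
      rw [← URep.op_mul, ← URep.op_mul]
      congr 1
      group
    have e2 : ρ.op h (ρ.op g w) = ρ.op g (ρ.op (g⁻¹ * h * g) w) :=
      congrArg (fun T : ρ.Sp →L[ℂ] ρ.Sp => T w) e1
    rw [e2, hw _ (h1 h hh)]
  have hfix' : ∀ w : ρ.Sp, (∀ h ∈ UB B', ρ.op h w = w) →
      ∀ h ∈ UB B, ρ.op h (ρ.op g⁻¹ w) = ρ.op g⁻¹ w := by
    intro w hw h hh
    have e1 : ρ.op h * ρ.op g⁻¹ = ρ.op g⁻¹ * ρ.op (g * h * g⁻¹) := by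
      rw [← URep.op_mul, ← URep.op_mul]
      congr 1
      group
    have e2 : ρ.op h (ρ.op g⁻¹ w) = ρ.op g⁻¹ (ρ.op (g * h * g⁻¹) w) :=
      congrArg (fun T : ρ.Sp →L[ℂ] ρ.Sp => T w) e1
    rw [e2, hw _ (h2 h hh)]
  refine ext_inner_left ℂ fun x => ?_
  have hsym : ∀ x y : ρ.Sp, (inner ℂ x (ρ.P B' y) : ℂ) = inner ℂ (ρ.P B' x) y := by
    intro x y
    have h3 := FIX.P_star ρ B'
    rw [ContinuousLinearMap.star_eq_adjoint] at h3
    rw [← ContinuousLinearMap.adjoint_inner_left, h3]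
  have e1 : ρ.op g (ρ.P B v) = ρ.P B' (ρ.op g (ρ.P B v)) :=
    (FIX.P_inv ρ B' _ (hfix _ (FIX.P_apply_inv ρ B v))).symm
  rw [e1, hsym, hsym]
  have e3 : ∀ y : ρ.Sp, (inner ℂ (ρ.P B' x) (ρ.op g y) : ℂ) =
      inner ℂ (ρ.op g⁻¹ (ρ.P B' x)) y := by
    intro y
    rw [FIX.inner_op_left, inv_inv]
  rw [e3, e3]
  exact FIX.inner_P_of_inv ρ B _ v (hfix' _ (FIX.P_apply_inv ρ B' x))

theorem pm_conj_apply {n : ℕ} (τ : Equiv.Perm (Fin n)) (h : UU n) (i j : Fin n) :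
    (((pm τ)⁻¹ * h * pm τ : UU n) : Matrix (Fin n) (Fin n) ℂ) i j =
      (h : Matrix (Fin n) (Fin n) ℂ) (τ i) (τ j) := by
  have h1 : (((pm τ)⁻¹ * h * pm τ : UU n) : Matrix (Fin n) (Fin n) ℂ) =
      pmM τ⁻¹ * (h : Matrix (Fin n) (Fin n) ℂ) * pmM τ := by
    rw [← map_inv]
    rfl
  rw [h1, Matrix.mul_apply, Finset.sum_eq_single (τ j)]
  · rw [Matrix.mul_apply, Finset.sum_eq_single (τ i)]
    · simp [pmM]
    · intro c _ hc
      have h4 : ¬ i = τ⁻¹ c := fun h5 => hc (by rw [h5]; simp)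
      have h5 : pmM τ⁻¹ i c = 0 := by
        show (if i = τ⁻¹ c then (1 : ℂ) else 0) = 0
        rw [if_neg h4]
      rw [h5, zero_mul]
    · simp
  · intro c _ hc
    simp [pmM, hc]
  · simp

theorem pm_conj_mem {n : ℕ} (τ : Equiv.Perm (Fin n)) (B B' : Finset (Fin n)) (h : UU n)
    (hh : h ∈ UB B') (hB : ∀ i, i ∉ B → τ i ∉ B') : (pm τ)⁻¹ * h * pm τ ∈ UB B := by
  show ∀ i j, (i ∉ B ∨ j ∉ B) →
    (((pm τ)⁻¹ * h * pm τ : UU n) : Matrix (Fin n) (Fin n) ℂ) i j = if i = j then 1 else 0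
  intro i j hij
  have hh' : ∀ i j, (i ∉ B' ∨ j ∉ B') →
      (h : Matrix (Fin n) (Fin n) ℂ) i j = if i = j then 1 else 0 := hh
  rw [pm_conj_apply, hh' (τ i) (τ j) (hij.imp (hB i) (hB j))]
  simp

/-- MSH (4) -/
theorem op_pm_P {n : ℕ} (ρ : URep n) (τ : Equiv.Perm (Fin n)) (B : Finset (Fin n)) (v : ρ.Sp) :
    ρ.op (pm τ) (ρ.P B v) = ρ.P (B.map τ.toEmbedding) (ρ.op (pm τ) v) := by
  refine P_conj ρ (pm τ) B (B.map τ.toEmbedding) ?_ ?_ v
  · intro h hh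
    refine pm_conj_mem τ B _ h hh ?_
    intro i hi hi2
    rw [Finset.mem_map] at hi2
    obtain ⟨a, ha, hai⟩ := hi2
    have : a = i := τ.injective hai
    exact hi (this ▸ ha)
  · intro h hh
    have h1 : pm τ * h * (pm τ)⁻¹ = (pm τ⁻¹)⁻¹ * h * pm τ⁻¹ := by
      rw [map_inv, inv_inv]
    rw [h1]
    refine pm_conj_mem τ⁻¹ _ B h hh ?_
    intro i hi hi2
    refine hi (Finset.mem_map.2 ⟨τ⁻¹ i, hi2, ?_⟩)
    simp

/-- MSH (5) -/
theorem pm_swap_mem {n : ℕ} (a b : Fin n) :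
    pm (Equiv.swap a b) ∈ UB ({a, b} : Finset (Fin n)) := by
  show ∀ i j, (i ∉ ({a, b} : Finset (Fin n)) ∨ j ∉ ({a, b} : Finset (Fin n))) →
    (pmM (Equiv.swap a b)) i j = if i = j then 1 else 0
  intro i j hij
  have key : (i = Equiv.swap a b j) ↔ i = j := by
    rcases hij with h | h
    · rw [Finset.mem_insert, Finset.mem_singleton, not_or] at h
      constructor
      · intro h2
        have h3 : Equiv.swap a b i = j := by rw [h2, Equiv.swap_apply_self]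
        rw [Equiv.swap_apply_of_ne_of_ne h.1 h.2] at h3
        exact h3
      · intro h2
        rw [← h2, Equiv.swap_apply_of_ne_of_ne h.1 h.2]
    · rw [Finset.mem_insert, Finset.mem_singleton, not_or] at h
      rw [Equiv.swap_apply_of_ne_of_ne h.1 h.2]
  simp [pmM, key]

theorem diag_of_mem {n : ℕ} (i : Fin n) (h : UU n) (hh : h ∈ UB ({i} : Finset (Fin n))) :
    ∃ d : Fin n → ℂ, (h : Matrix (Fin n) (Fin n) ℂ) = Matrix.diagonal d ∧
      ∀ j, star (d j) * d j = 1 := by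
  have hh' : ∀ a b, (a ∉ ({i} : Finset (Fin n)) ∨ b ∉ ({i} : Finset (Fin n))) →
      (h : Matrix (Fin n) (Fin n) ℂ) a b = if a = b then 1 else 0 := hh
  have hd : (h : Matrix (Fin n) (Fin n) ℂ) =
      Matrix.diagonal (fun j => (h : Matrix (Fin n) (Fin n) ℂ) j j) := by
    ext a b
    rw [Matrix.diagonal_apply]
    by_cases hab : a = b
    · rw [if_pos hab, hab]
    · rw [if_neg hab, hh' a b, if_neg hab]
      by_contra hc
      rw [not_or, not_not, not_not, Finset.mem_singleton, Finset.mem_singleton] at hc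
      exact hab (hc.1.trans hc.2.symm)
  refine ⟨_, hd, ?_⟩
  intro j
  have h1 : star (h : Matrix (Fin n) (Fin n) ℂ) * (h : Matrix (Fin n) (Fin n) ℂ) = 1 :=
    Matrix.mem_unitaryGroup_iff'.1 h.2
  rw [hd, Matrix.star_eq_conjTranspose, Matrix.diagonal_conjTranspose,
    Matrix.diagonal_mul_diagonal] at h1
  have h2 := congrFun (congrFun h1 j) j
  rw [Matrix.diagonal_apply_eq, Matrix.one_apply_eq] at h2
  exact h2

theorem torus_conj_mem {n : ℕ} (i : Fin n) (h : UU n) (hh : h ∈ UB ({i} : Finset (Fin n)))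
    (B : Finset (Fin n)) (k : UU n) (hk : k ∈ UB B) : h⁻¹ * k * h ∈ UB B := by
  obtain ⟨d, hd, hd1⟩ := diag_of_mem i h hh
  show ∀ a b, (a ∉ B ∨ b ∉ B) →
    ((h⁻¹ * k * h : UU n) : Matrix (Fin n) (Fin n) ℂ) a b = if a = b then 1 else 0
  intro a b hab
  have hk' : ∀ a b, (a ∉ B ∨ b ∉ B) →
      (k : Matrix (Fin n) (Fin n) ℂ) a b = if a = b then 1 else 0 := hk
  have h1 : ((h⁻¹ * k * h : UU n) : Matrix (Fin n) (Fin n) ℂ) =
      star (h : Matrix (Fin n) (Fin n) ℂ) * (k : Matrix (Fin n) (Fin n) ℂ) *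
        (h : Matrix (Fin n) (Fin n) ℂ) := rfl
  rw [h1, hd, Matrix.star_eq_conjTranspose, Matrix.diagonal_conjTranspose, Matrix.mul_diagonal,
    Matrix.diagonal_mul, hk' a b hab, Pi.star_apply]
  by_cases h2 : a = b
  · subst h2
    rw [if_pos rfl, mul_one, hd1]
  · rw [if_neg h2, mul_zero, zero_mul]

/-- the torus commutes with the averaging projections -/
theorem torus_P {n : ℕ} (ρ : URep n) (i : Fin n) (h : UU n) (hh : h ∈ UB ({i} : Finset (Fin n)))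
    (B : Finset (Fin n)) (v : ρ.Sp) : ρ.op h (ρ.P B v) = ρ.P B (ρ.op h v) := by
  refine P_conj ρ h B B (torus_conj_mem i h hh B) ?_ v
  intro k hk
  have h1 : h * k * h⁻¹ = (h⁻¹)⁻¹ * k * h⁻¹ := by rw [inv_inv]
  rw [h1]
  exact torus_conj_mem i h⁻¹ (Subgroup.inv_mem _ hh) B k hk

/-- MSH (6), first part -/
theorem tinv_P {n : ℕ} (ρ : URep n) (v : ρ.Sp) (hv : TInv ρ v) (B : Finset (Fin n)) :
    TInv ρ (ρ.P B v) := by
  intro i h hh
  rw [torus_P ρ i h hh, hv i h hh]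

/-- MSH (6), second part -/
theorem tinv_pm {n : ℕ} (ρ : URep n) (v : ρ.Sp) (hv : TInv ρ v) (τ : Equiv.Perm (Fin n)) :
    TInv ρ (ρ.op (pm τ) v) := by
  intro i h hh
  have e1 : ρ.op h * ρ.op (pm τ) = ρ.op (pm τ) * ρ.op ((pm τ)⁻¹ * h * pm τ) := by
    rw [← URep.op_mul, ← URep.op_mul]
    congr 1
    group
  have e2 : ρ.op h (ρ.op (pm τ) v) = ρ.op (pm τ) (ρ.op ((pm τ)⁻¹ * h * pm τ) v) :=
    congrArg (fun T : ρ.Sp →L[ℂ] ρ.Sp => T v) e1
  rw [e2, hv (τ⁻¹ i)]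
  refine pm_conj_mem τ {τ⁻¹ i} {i} h hh ?_
  intro j hj hj2
  rw [Finset.mem_singleton] at hj hj2
  exact hj (by rw [← hj2]; simp)

/-- row MSH -/
theorem msh : MSHStmt := fun _ ρ D hD =>
  ⟨fun ν v a b hv => wt_shift ρ D hD ν v a b hv, fun v => tinv_iff ρ D hD v,
    fun τ a b v => op_pm_D ρ D hD τ a b v, fun τ B v => op_pm_P ρ τ B v,
    fun a b => pm_swap_mem a b,
    fun v hv => ⟨fun B => tinv_P ρ v hv B, fun τ => tinv_pm ρ v hv τ⟩⟩

end Pool.Agent.GRA.H02
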