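import Pool.Agent.GRA.StmtsK

/-!
MP_3b0ba7_pr, squad GRA, row MWT: the Casimir bound of a weight.
-/

set_option autoImplicit false

namespace Pool.Agent.GRA.H02

open Pool.Agent.GRA Pool.Agent.Helper64_FR Pool.Agent.UTR Matrix Finset

theorem star_EE {n : ℕ} (i j : Fin n) : star (EE i j : Matrix (Fin n) (Fin n) ℂ) = EE j i := by
  rw [Matrix.star_eq_conjTranspose, Matrix.conjTranspose_single, star_one]

/-- norms of the root vectors at a weight vector -/
theorem nrm_diff {n : ℕ} (ρ : URep n)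
    (D : Matrix (Fin n) (Fin n) ℂ →ₗ[ℂ] (ρ.Sp →L[ℂ] ρ.Sp)) (hD : IsDer ρ D)
    (ν : Fin n → ℝ) (v : ρ.Sp) (hv : wt ρ D ν v) (i j : Fin n) (hij : i ≠ j) :
    ‖D (EE j i) v‖ ^ 2 - ‖D (EE i j) v‖ ^ 2 = (ν i - ν j) * ‖v‖ ^ 2 := by
  have e0 : ∀ a b : Fin n, ((‖D (EE a b) v‖ ^ 2 : ℝ) : ℂ) =
      inner ℂ v ((D (EE b a) * D (EE a b)) v) := by
    intro a b
    have h1 : star (D (EE a b)) = D (EE b a) := by rw [hD.star_eq, star_EE]
    have h2 : inner ℂ (D (EE a b) v) (D (EE a b) v) = ((‖D (EE a b) v‖ ^ 2 : ℝ) : ℂ) := by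
      rw [inner_self_eq_norm_sq_to_K]
      push_cast
      rfl
    rw [← h2, ← h1, ContinuousLinearMap.star_eq_adjoint]
    show _ = inner ℂ v (ContinuousLinearMap.adjoint (D (EE a b)) (D (EE a b) v))
    rw [ContinuousLinearMap.adjoint_inner_right]
  have e1 : (((‖D (EE j i) v‖ ^ 2 - ‖D (EE i j) v‖ ^ 2 : ℝ)) : ℂ) =
      (((ν i - ν j) * ‖v‖ ^ 2 : ℝ) : ℂ) := by
    rw [Complex.ofReal_sub, e0 j i, e0 i j, ← inner_sub_right, ← ContinuousLinearMap.sub_apply,
      hD.comm_eq, Matrix.single_mul_single_same, Matrix.single_mul_single_same, map_sub,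
      ContinuousLinearMap.sub_apply, mul_one, hv i, hv j, ← sub_smul, inner_smul_right,
      inner_self_eq_norm_sq_to_K]
    push_cast
    rfl
  exact_mod_cast e1

/-- row MWT -/
theorem mwt : MWTStmt := by
  intro n ρ D C hD hC ν v hv0 hv
  have hvpos : 0 < ‖v‖ ^ 2 := by
    have := norm_pos_iff.2 hv0
    positivity
  -- the Casimir identity at `v`
  have hcas : C * ‖v‖ ^ 2 = ∑ i, ∑ j, ‖D (EE i j) v‖ ^ 2 := by
    have h1 : (∑ i, ∑ j, star (D (EE i j)) * D (EE i j)) v = (C : ℂ) • v := by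
      have h0 := hC
      unfold IsCas at h0
      rw [h0]
      rfl
    have h2 : inner ℂ v ((∑ i, ∑ j, star (D (EE i j)) * D (EE i j)) v) =
        (((∑ i, ∑ j, ‖D (EE i j) v‖ ^ 2 : ℝ)) : ℂ) := by
      rw [ContinuousLinearMap.sum_apply, inner_sum, Complex.ofReal_sum]
      refine Finset.sum_congr rfl fun i _ => ?_
      rw [ContinuousLinearMap.sum_apply, inner_sum, Complex.ofReal_sum]
      refine Finset.sum_congr rfl fun j _ => ?_
      rw [ContinuousLinearMap.star_eq_adjoint]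
      show inner ℂ v (ContinuousLinearMap.adjoint (D (EE i j)) (D (EE i j) v)) = _
      rw [ContinuousLinearMap.adjoint_inner_right, inner_self_eq_norm_sq_to_K]
      push_cast
      rfl
    rw [h1, inner_smul_right, inner_self_eq_norm_sq_to_K] at h2
    have h3 : ((C * ‖v‖ ^ 2 : ℝ) : ℂ) = (((∑ i, ∑ j, ‖D (EE i j) v‖ ^ 2 : ℝ)) : ℂ) := by
      rw [← h2]
      push_cast
      rfl
    exact_mod_cast h3
  have hdiag : ∀ i, ‖D (EE i i) v‖ ^ 2 = ν i ^ 2 * ‖v‖ ^ 2 := by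
    intro i
    rw [hv i, norm_smul, mul_pow, Complex.norm_real, Real.norm_eq_abs, sq_abs]
  have hsym : ∑ i, ∑ j, ‖D (EE i j) v‖ ^ 2 =
      ∑ i, ∑ j, (1 / 2) * (‖D (EE i j) v‖ ^ 2 + ‖D (EE j i) v‖ ^ 2) := by
    have h1 : ∑ i, ∑ j, ‖D (EE j i) v‖ ^ 2 = ∑ i, ∑ j, ‖D (EE i j) v‖ ^ 2 := Finset.sum_comm
    simp only [mul_add, Finset.sum_add_distrib, ← Finset.mul_sum]
    rw [h1]
    ring
  have hrhs : (∑ i, ν i ^ 2 + (1 / 2) * ∑ i, ∑ j, |ν i - ν j|) * ‖v‖ ^ 2 =
      ∑ i, ∑ j, ((if i = j then ν i ^ 2 * ‖v‖ ^ 2 else 0) + (1 / 2) * (|ν i - ν j| * ‖v‖ ^ 2)) := by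
    rw [add_mul, Finset.sum_mul, mul_assoc, Finset.sum_mul, Finset.mul_sum,
      ← Finset.sum_add_distrib]
    refine Finset.sum_congr rfl fun i _ => ?_
    rw [Finset.sum_mul, Finset.mul_sum, Finset.sum_add_distrib, Finset.sum_ite_eq,
      if_pos (Finset.mem_univ i)]
  constructor
  · refine le_of_mul_le_mul_right ?_ hvpos
    rw [hcas, hsym, hrhs]
    refine Finset.sum_le_sum fun i _ => Finset.sum_le_sum fun j _ => ?_
    by_cases hij : i = j
    · subst hij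
      rw [if_pos rfl, sub_self, abs_zero, hdiag i]
      apply le_of_eq
      ring
    · rw [if_neg hij, zero_add]
      have h1 := nrm_diff ρ D hD ν v hv i j hij
      have h2 := nrm_diff ρ D hD ν v hv j i (Ne.symm hij)
      have h3 : |ν i - ν j| * ‖v‖ ^ 2 ≤ ‖D (EE i j) v‖ ^ 2 + ‖D (EE j i) v‖ ^ 2 := by
        rcases abs_cases (ν i - ν j) with h | h
        · rw [h.1, ← h1]
          nlinarith [sq_nonneg ‖D (EE i j) v‖]
        · rw [h.1, neg_sub, ← h2]
          nlinarith [sq_nonneg ‖D (EE j i) v‖]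
      linarith
  · intro hz
    refine mul_right_cancel₀ hvpos.ne' ?_
    rw [hcas, hsym, hrhs]
    refine Finset.sum_congr rfl fun i _ => Finset.sum_congr rfl fun j _ => ?_
    by_cases hij : i = j
    · subst hij
      rw [if_pos rfl, sub_self, abs_zero, hdiag i]
      ring
    · rw [if_neg hij, zero_add]
      have h1 := nrm_diff ρ D hD ν v hv i j hij
      rcases le_total (ν j) (ν i) with h | h
      · have h2 : ‖D (EE i j) v‖ ^ 2 = 0 := by
          rw [hz i j hij h, norm_zero]; norm_num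
        rw [h2] at h1 ⊢
        rw [abs_of_nonneg (sub_nonneg.2 h)]
        linarith
      · have h2 : ‖D (EE j i) v‖ ^ 2 = 0 := by
          rw [hz j i (Ne.symm hij) h, norm_zero]; norm_num
        rw [h2] at h1 ⊢
        rw [abs_of_nonpos (sub_nonpos.2 h)]
        linarith

end Pool.Agent.GRA.H02
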