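import Pool.Agent.GRA.StmtsK
import Pool.Agent.Helper2_GRA.EXPV

/-!
MP_3b0ba7_pr, squad GRA, row WTD: weight vectors, derived action and diagonal matrices.
-/

set_option autoImplicit false

namespace Pool.Agent.GRA.H02

open Pool.Agent.GRA Pool.Agent.Helper64_FR Pool.Agent.UTR Matrix Finset

theorem smul_EE_diag {n : ℕ} (i : Fin n) (c : ℂ) :
    c • (EE i i : Matrix (Fin n) (Fin n) ℂ) = Matrix.diagonal (fun j => if j = i then c else 0) := by
  rw [EE, Matrix.smul_single, smul_eq_mul, mul_one, ← Matrix.diagonal_single]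
  congr 1
  funext j
  rw [Pi.single_apply]

theorem exp_smul_EE {n : ℕ} (i : Fin n) (c : ℂ) :
    NormedSpace.exp (c • (EE i i : Matrix (Fin n) (Fin n) ℂ)) =
      Matrix.diagonal (fun j => if j = i then Complex.exp c else 1) := by
  rw [smul_EE_diag, Matrix.exp_diagonal]
  congr 1
  funext j
  rw [Pi.coe_exp]
  by_cases h : j = i
  · rw [if_pos h, if_pos h, Complex.exp_eq_exp_ℂ]
  · rw [if_neg h, if_neg h, NormedSpace.exp_zero]

theorem star_smul_EE {n : ℕ} (i : Fin n) (θ : ℝ) :
    star ((θ * Complex.I) • (EE i i : Matrix (Fin n) (Fin n) ℂ)) =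
      -((θ * Complex.I) • (EE i i : Matrix (Fin n) (Fin n) ℂ)) := by
  rw [star_smul, Matrix.star_eq_conjTranspose, Matrix.conjTranspose_single, star_one, ← neg_smul]
  congr 1
  rw [Complex.star_def, map_mul, Complex.conj_ofReal, Complex.conj_I]
  ring

/-- a diagonal unitary matrix -/
theorem dU_mem {n : ℕ} (i : Fin n) (θ : ℝ) :
    Matrix.diagonal (fun j : Fin n => if j = i then Complex.exp (θ * Complex.I) else 1) ∈
      Matrix.unitaryGroup (Fin n) ℂ := by
  rw [Matrix.mem_unitaryGroup_iff, Matrix.star_eq_conjTranspose, Matrix.diagonal_conjTranspose,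
    Matrix.diagonal_mul_diagonal, ← Matrix.diagonal_one]
  congr 1
  funext j
  rw [Pi.star_apply]
  by_cases h : j = i
  · rw [if_pos h, Complex.star_def, ← Complex.exp_conj, map_mul, Complex.conj_ofReal,
      Complex.conj_I, ← Complex.exp_add]
    ring_nf
    exact Complex.exp_zero
  · rw [if_neg h, star_one, mul_one]

/-- row WTD -/
theorem wtd : WTDStmt := by
  intro n ρ D hD i v a
  constructor
  · intro h θ g hg
    have h1 : ρ.op g = NormedSpace.exp (D ((θ * Complex.I) • EE i i)) :=
      hD.exp_eq _ g (star_smul_EE i θ) (by rw [exp_smul_EE]; exact hg)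
    rw [h1]
    have h2 : D ((θ * Complex.I) • EE i i) v = (a * θ * Complex.I) • v := by
      rw [map_smul, _root_.smul_apply, h, smul_smul]
      congr 1
      ring
    exact exp_apply_eig _ v _ h2
  · intro h
    have h1 := hasDerivAt_exp_vec (D (Complex.I • EE i i)) v
    have h2 : (fun θ : ℝ => (NormedSpace.exp ((θ : ℂ) • D (Complex.I • EE i i))) v) =
        fun θ : ℝ => Complex.exp (a * θ * Complex.I) • v := by
      funext θ
      rw [← h θ ⟨_, dU_mem i θ⟩ rfl, hD.exp_eq _ ⟨_, dU_mem i θ⟩ (star_smul_EE i θ)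
        (by rw [exp_smul_EE])]
      rw [← map_smul, smul_smul]
    rw [h2] at h1
    have h3 : HasDerivAt (fun θ : ℝ => Complex.exp (a * θ * Complex.I) • v)
        ((a * Complex.I) • v) 0 := by
      have h4 : HasDerivAt (fun θ : ℝ => Complex.exp (a * θ * Complex.I))
          (Complex.exp (a * (0 : ℝ) * Complex.I) * (a * Complex.I)) 0 := by
        have h5 : HasDerivAt (fun θ : ℝ => (a : ℂ) * θ * Complex.I) (a * Complex.I) 0 := by
          have h6 := (((hasDerivAt_id (0 : ℝ)).ofReal_comp).const_mul (a : ℂ)).mul_const Complex.I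
          simp only [id_eq, Complex.ofReal_one, mul_one] at h6
          exact h6
        exact h5.cexp
      have h7 := h4.smul_const v
      simpa using h7
    have h8 := h1.unique h3
    rw [map_smul, _root_.smul_apply] at h8
    have h9 : Complex.I • (D (EE i i) v - (a : ℂ) • v) = 0 := by
      rw [smul_sub, h8, smul_smul, mul_comm, sub_self]
    have h10 := (smul_eq_zero.1 h9).resolve_left Complex.I_ne_zero
    exact sub_eq_zero.1 h10

end Pool.Agent.GRA.H02
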